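import Pool.Agent.ClassOne.Defs

/-!
# MP_91ad52_an: from a class one representation to `SphData` (module M2)
-/

open Matrix MeasureTheory Filter Topology
open scoped InnerProductSpace

namespace Pool.Agent.ClassOne

variable {n : ℕ}

lemma SO_mul_mulVec (g h : SO n) (x : Fin n → ℝ) :
    (g * h).1 *ᵥ x = g.1 *ᵥ (h.1 *ᵥ x) := by
  rw [Matrix.mulVec_mulVec]; rfl

lemma SO_one_mulVec (x : Fin n → ℝ) : (1 : SO n).1 *ᵥ x = x := by
  have : (1 : SO n).1 = (1 : Matrix (Fin n) (Fin n) ℝ) := rfl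
  rw [this, Matrix.one_mulVec]

lemma SO_transpose_mul (g : SO n) : (g.1)ᵀ * g.1 = 1 := by
  have h := (Matrix.mem_specialUnitaryGroup_iff.1 g.2).1
  have h2 := (Matrix.mem_unitaryGroup_iff').1 h
  rw [Matrix.star_eq_conjTranspose] at h2
  have h3 : (g.1)ᴴ = (g.1)ᵀ := by
    ext i j; simp [Matrix.conjTranspose_apply, Matrix.transpose_apply]
  rw [h3] at h2
  exact h2

lemma SO_mul_transpose' (g : SO n) : g.1 * (g.1)ᵀ = 1 :=
  mul_eq_one_comm.1 (SO_transpose_mul g)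

lemma SO_det (g : SO n) : (g.1).det = 1 := (Matrix.mem_specialUnitaryGroup_iff.1 g.2).2

lemma SO_dot (g : SO n) (x y : Fin n → ℝ) : (g.1 *ᵥ x) ⬝ᵥ (g.1 *ᵥ y) = x ⬝ᵥ y := by
  rw [Matrix.dotProduct_mulVec, Matrix.vecMul_mulVec, SO_transpose_mul, Matrix.vecMul_one]

lemma fixesE_iff (i0 : Fin n) (g : SO n) :
    FixesE i0 g ↔ g.1 *ᵥ (Pi.single i0 1) = Pi.single i0 1 := by
  rw [Matrix.mulVec_single_one]
  constructor
  · intro h
    ext i
    rw [Matrix.col_apply, h i, Pi.single_apply]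
  · intro h i
    have := congrFun h i
    rw [Matrix.col_apply, Pi.single_apply] at this
    exact this

lemma single_dot_single (i0 : Fin n) :
    (Pi.single i0 1 : Fin n → ℝ) ⬝ᵥ (Pi.single i0 1) = 1 := by
  simp

lemma SO_inv_mulVec_mulVec (g : SO n) (x : Fin n → ℝ) : (g⁻¹).1 *ᵥ (g.1 *ᵥ x) = x := by
  rw [← SO_mul_mulVec, inv_mul_cancel, SO_one_mulVec]

lemma SO_mulVec_inv_mulVec (g : SO n) (x : Fin n → ℝ) : g.1 *ᵥ ((g⁻¹).1 *ᵥ x) = x := by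
  rw [← SO_mul_mulVec, mul_inv_cancel, SO_one_mulVec]

section

variable {H : Type*} [NormedAddCommGroup H] [InnerProductSpace ℂ H]

lemma pi_mul (π : SO n →* (H ≃ₗᵢ[ℂ] H)) (g h : SO n) (w : H) :
    π (g * h) w = π g (π h w) := by
  rw [map_mul]; rfl

lemma pi_inv_pi (π : SO n →* (H ≃ₗᵢ[ℂ] H)) (g : SO n) (w : H) :
    π g⁻¹ (π g w) = w := by
  rw [← pi_mul, inv_mul_cancel, map_one]; rfl

lemma pi_pi_inv (π : SO n →* (H ≃ₗᵢ[ℂ] H)) (g : SO n) (w : H) :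
    π g (π g⁻¹ w) = w := by
  rw [← pi_mul, mul_inv_cancel, map_one]; rfl

/-- the vector attached to a point of the sphere -/
noncomputable def mkV (hT : Stmt_TwoPoint) (hn : 3 ≤ n) (π : SO n →* (H ≃ₗᵢ[ℂ] H)) (i0 : Fin n)
    (v : H) (x : Fin n → ℝ) : H := by
  classical
  exact if hx : x ⬝ᵥ x = 1 then
    π (Classical.choose (hT n hn (Pi.single i0 1) (Pi.single i0 1) x x
      (single_dot_single i0) (single_dot_single i0) hx hx
      ((single_dot_single i0).trans hx.symm))) v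
  else 0

lemma mkV_spec (hT : Stmt_TwoPoint) (hn : 3 ≤ n) (π : SO n →* (H ≃ₗᵢ[ℂ] H)) (i0 : Fin n)
    (v : H) (hv : v ∈ fixedSpace π i0) (x : Fin n → ℝ) (hx : x ⬝ᵥ x = 1) (g : SO n)
    (hg : g.1 *ᵥ (Pi.single i0 1) = x) : mkV hT hn π i0 v x = π g v := by
  have hex := hT n hn (Pi.single i0 1) (Pi.single i0 1) x x
      (single_dot_single i0) (single_dot_single i0) hx hx
      ((single_dot_single i0).trans hx.symm)
  have h1 : mkV hT hn π i0 v x = π (Classical.choose hex) v := by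
    unfold mkV
    rw [dif_pos hx]
  have h2 := (Classical.choose_spec hex).1
  rw [h1]
  generalize Classical.choose hex = g0 at h1 h2 ⊢
  have h3 : FixesE i0 (g0⁻¹ * g) := by
    rw [fixesE_iff, SO_mul_mulVec, hg]
    conv_lhs => rw [← h2]
    rw [SO_inv_mulVec_mulVec]
  have h4 := hv _ h3
  rw [pi_mul] at h4
  have h5 := congrArg (π g0) h4
  rw [pi_pi_inv] at h5
  exact h5.symm

lemma exists_SO (hT : Stmt_TwoPoint) (hn : 3 ≤ n) (i0 : Fin n) (x : Fin n → ℝ)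
    (hx : x ⬝ᵥ x = 1) : ∃ g : SO n, g.1 *ᵥ (Pi.single i0 1) = x :=
  let ⟨g, hg, _⟩ := hT n hn (Pi.single i0 1) (Pi.single i0 1) x x
      (single_dot_single i0) (single_dot_single i0) hx hx
      ((single_dot_single i0).trans hx.symm)
  ⟨g, hg⟩

lemma mkV_act (hT : Stmt_TwoPoint) (hn : 3 ≤ n) (π : SO n →* (H ≃ₗᵢ[ℂ] H)) (i0 : Fin n)
    (v : H) (hv : v ∈ fixedSpace π i0) (g : SO n) (x : Fin n → ℝ) (hx : x ⬝ᵥ x = 1) :
    π g (mkV hT hn π i0 v x) = mkV hT hn π i0 v (g.1 *ᵥ x) := by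
  obtain ⟨h, hh⟩ := exists_SO hT hn i0 x hx
  rw [mkV_spec hT hn π i0 v hv x hx h hh,
    mkV_spec hT hn π i0 v hv (g.1 *ᵥ x) (by rw [SO_dot, hx]) (g * h)
      (by rw [SO_mul_mulVec, hh]), pi_mul]

lemma mkV_inner_eq (hT : Stmt_TwoPoint) (hn : 3 ≤ n) (π : SO n →* (H ≃ₗᵢ[ℂ] H)) (i0 : Fin n)
    (v : H) (hv : v ∈ fixedSpace π i0) (x y x' y' : Fin n → ℝ) (hx : x ⬝ᵥ x = 1)
    (hy : y ⬝ᵥ y = 1) (hx' : x' ⬝ᵥ x' = 1) (hy' : y' ⬝ᵥ y' = 1) (h : x ⬝ᵥ y = x' ⬝ᵥ y') :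
    inner ℂ (mkV hT hn π i0 v x) (mkV hT hn π i0 v y) =
      inner ℂ (mkV hT hn π i0 v x') (mkV hT hn π i0 v y') := by
  obtain ⟨g, hg1, hg2⟩ := hT n hn x y x' y' hx hy hx' hy' h
  rw [← hg1, ← hg2, ← mkV_act hT hn π i0 v hv g x hx, ← mkV_act hT hn π i0 v hv g y hy,
    LinearIsometryEquiv.inner_map_map]

open Classical in
/-- the function `f` -/
noncomputable def mkf (hT : Stmt_TwoPoint) (hn : 3 ≤ n) (π : SO n →* (H ≃ₗᵢ[ℂ] H)) (i0 : Fin n)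
    (v : H) (t : ℝ) : ℝ :=
  if h : ∃ p : (Fin n → ℝ) × (Fin n → ℝ), p.1 ⬝ᵥ p.1 = 1 ∧ p.2 ⬝ᵥ p.2 = 1 ∧ p.1 ⬝ᵥ p.2 = t then
    (inner ℂ (mkV hT hn π i0 v (Classical.choose h).1)
      (mkV hT hn π i0 v (Classical.choose h).2)).re
  else 0

lemma mkf_spec (hT : Stmt_TwoPoint) (hn : 3 ≤ n) (π : SO n →* (H ≃ₗᵢ[ℂ] H)) (i0 : Fin n)
    (v : H) (hv : v ∈ fixedSpace π i0) (x y : Fin n → ℝ) (hx : x ⬝ᵥ x = 1)
    (hy : y ⬝ᵥ y = 1) :
    inner ℂ (mkV hT hn π i0 v x) (mkV hT hn π i0 v y) =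
      ((mkf hT hn π i0 v (x ⬝ᵥ y) : ℝ) : ℂ) := by
  have hex : ∃ p : (Fin n → ℝ) × (Fin n → ℝ), p.1 ⬝ᵥ p.1 = 1 ∧ p.2 ⬝ᵥ p.2 = 1 ∧
      p.1 ⬝ᵥ p.2 = x ⬝ᵥ y := ⟨(x, y), hx, hy, rfl⟩
  have h1 := Classical.choose_spec hex
  have h2 : mkf hT hn π i0 v (x ⬝ᵥ y) = (inner ℂ (mkV hT hn π i0 v (Classical.choose hex).1)
      (mkV hT hn π i0 v (Classical.choose hex).2)).re := by
    unfold mkf
    rw [dif_pos hex]
  rw [h2, ← mkV_inner_eq hT hn π i0 v hv x y _ _ hx hy h1.1 h1.2.1 h1.2.2.symm]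
  have h3 : inner ℂ (mkV hT hn π i0 v x) (mkV hT hn π i0 v y) =
      inner ℂ (mkV hT hn π i0 v y) (mkV hT hn π i0 v x) :=
    mkV_inner_eq hT hn π i0 v hv x y y x hx hy hy hx (dotProduct_comm x y)
  have h4 : (starRingEnd ℂ) (inner ℂ (mkV hT hn π i0 v x) (mkV hT hn π i0 v y)) =
      inner ℂ (mkV hT hn π i0 v x) (mkV hT hn π i0 v y) := by
    rw [inner_conj_symm, h3]
  exact (Complex.conj_eq_iff_re.1 h4).symm

end

/-- module M2, with `Stmt_TwoPoint` as hypothesis -/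
theorem Build_of_TwoPoint.{u} (hT : Stmt_TwoPoint) : Stmt_Build.{u} := by
  intro n H _ _ π i0 hn hfin v hv hv1
  have hVe : mkV hT hn π i0 v (Pi.single i0 1) = v := by
    rw [mkV_spec hT hn π i0 v hv _ (single_dot_single i0) 1 (SO_one_mulVec _), map_one]; rfl
  have hv0 : (⟨v, hv⟩ : fixedSpace π i0) ≠ 0 := by
    intro h
    have : v = 0 := congrArg Subtype.val h
    rw [this, norm_zero] at hv1
    exact zero_ne_one hv1
  refine ⟨{ V := mkV hT hn π i0 v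
            f := mkf hT hn π i0 v
            inner_V := fun x y hx hy => mkf_spec hT hn π i0 v hv x y hx hy
            f_one := ?_
            act := fun g x hx => mkV_act hT hn π i0 v hv g x hx
            fixed := ?_ }, hVe⟩
  · have h := mkf_spec hT hn π i0 v hv (Pi.single i0 1) (Pi.single i0 1)
      (single_dot_single i0) (single_dot_single i0)
    rw [single_dot_single, hVe, inner_self_eq_norm_sq_to_K, hv1] at h
    have h2 : ((mkf hT hn π i0 v 1 : ℝ) : ℂ) = ((1 : ℝ) : ℂ) := by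
      rw [← h]; norm_num
    exact Complex.ofReal_injective h2
  · intro x hx w hw
    obtain ⟨g, hg⟩ := exists_SO hT hn i0 x hx
    have hmem : π g⁻¹ w ∈ fixedSpace π i0 := by
      intro h hh
      rw [fixesE_iff] at hh
      have h1 : (g * h * g⁻¹).1 *ᵥ x = x := by
        rw [SO_mul_mulVec, SO_mul_mulVec]
        conv_lhs => rw [← hg]
        rw [SO_inv_mulVec_mulVec, hh, hg]
      have h2 := hw _ h1
      rw [pi_mul, pi_mul] at h2
      have h3 := congrArg (π g⁻¹) h2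
      rw [pi_inv_pi] at h3
      exact h3
    obtain ⟨c, hc⟩ := (finrank_eq_one_iff_of_nonzero' (⟨v, hv⟩ : fixedSpace π i0) hv0).1 hfin
      ⟨π g⁻¹ w, hmem⟩
    refine ⟨c, ?_⟩
    have h4 : c • v = π g⁻¹ w := congrArg Subtype.val hc
    have h5 := congrArg (π g) h4
    rw [pi_pi_inv, map_smul, ← mkV_spec hT hn π i0 v hv x hx g hg] at h5
    exact h5.symm

end Pool.Agent.ClassOne
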