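import Pool.Agent.ClassOne.Defs

/-!
# If the limit at `1` is `1`, then everything is continuous
-/

open Matrix MeasureTheory Filter Topology
open scoped InnerProductSpace

namespace Pool.Agent.ClassOne

lemma dotProduct_le_one {n : ℕ} {x y : Fin n → ℝ} (hx : x ⬝ᵥ x = 1) (hy : y ⬝ᵥ y = 1) :
    x ⬝ᵥ y ≤ 1 := by
  have h : 0 ≤ (x - y) ⬝ᵥ (x - y) := Finset.sum_nonneg fun i _ => mul_self_nonneg _
  rw [sub_dotProduct, dotProduct_sub, dotProduct_sub, hx, hy, dotProduct_comm y x] at h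
  linarith

lemma norm_V_sub {n : ℕ} {H : Type*} [NormedAddCommGroup H] [InnerProductSpace ℂ H]
    {V : (Fin n → ℝ) → H} {f : ℝ → ℝ} (hf1 : f 1 = 1)
    (hV : ∀ x y : Fin n → ℝ, x ⬝ᵥ x = 1 → y ⬝ᵥ y = 1 →
      inner ℂ (V x) (V y) = ((f (x ⬝ᵥ y) : ℝ) : ℂ)) {x y : Fin n → ℝ} (hx : x ⬝ᵥ x = 1)
    (hy : y ⬝ᵥ y = 1) : ‖V x - V y‖ ^ 2 = 2 - 2 * f (x ⬝ᵥ y) := by
  have h1 : ‖V x‖ ^ 2 = 1 := by
    rw [norm_sq_eq_re_inner (𝕜 := ℂ), hV x x hx hx, hx, hf1]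
    simp
  have h2 : ‖V y‖ ^ 2 = 1 := by
    rw [norm_sq_eq_re_inner (𝕜 := ℂ), hV y y hy hy, hy, hf1]
    simp
  rw [norm_sub_sq (𝕜 := ℂ), h1, h2, hV x y hx hy]
  have : RCLike.re (((f (x ⬝ᵥ y) : ℝ) : ℂ)) = f (x ⬝ᵥ y) := Complex.ofReal_re _
  rw [this]
  ring

/-- the point with coordinates `t`, `√(1 - t²)` -/
noncomputable def pt {n : ℕ} (i0 i1 : Fin n) (t : ℝ) : Fin n → ℝ :=
  t • Pi.single i0 1 + Real.sqrt (1 - t ^ 2) • Pi.single i1 1

lemma pt_dot {n : ℕ} (i0 i1 : Fin n) (t : ℝ) (w : Fin n → ℝ) :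
    pt i0 i1 t ⬝ᵥ w = t * w i0 + Real.sqrt (1 - t ^ 2) * w i1 := by
  unfold pt
  rw [add_dotProduct, smul_dotProduct, smul_dotProduct, single_one_dotProduct,
    single_one_dotProduct, smul_eq_mul, smul_eq_mul]

lemma pt_unit {n : ℕ} {i0 i1 : Fin n} (h : i0 ≠ i1) {t : ℝ} (ht : t ∈ Set.Icc (-1 : ℝ) 1) :
    pt i0 i1 t ⬝ᵥ pt i0 i1 t = 1 := by
  have h1 : (0 : ℝ) ≤ 1 - t ^ 2 := by nlinarith [ht.1, ht.2]
  rw [pt_dot]
  unfold pt
  simp [h, h.symm]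
  have := Real.mul_self_sqrt h1
  nlinarith

theorem Cont_proof.{u} : Stmt_Cont.{u} := by
  intro n H _ _ V f hn hf1 hV hlim
  have hcw : ContinuousWithinAt f (Set.Iic 1) 1 := by
    rw [← continuousWithinAt_Iio_iff_Iic]
    unfold ContinuousWithinAt
    rw [hf1]
    exact hlim
  have hcV : ContinuousOn V {x | x ⬝ᵥ x = 1} := by
    intro x hx
    have hx' : x ⬝ᵥ x = 1 := hx
    unfold ContinuousWithinAt
    rw [tendsto_iff_norm_sub_tendsto_zero]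
    have h1 : Tendsto (fun y : Fin n → ℝ => y ⬝ᵥ x) (𝓝[{x | x ⬝ᵥ x = 1}] x) (𝓝[Set.Iic 1] 1) := by
      refine tendsto_nhdsWithin_iff.2 ⟨?_, ?_⟩
      · have h2 : Continuous (fun y : Fin n → ℝ => y ⬝ᵥ x) := by fun_prop
        have h3 := h2.continuousAt (x := x)
        unfold ContinuousAt at h3
        simp only [hx'] at h3
        exact h3.mono_left nhdsWithin_le_nhds
      · filter_upwards [self_mem_nhdsWithin] with y hy
        exact dotProduct_le_one hy hx'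
    have h2 : Tendsto (fun y : Fin n → ℝ => 2 - 2 * f (y ⬝ᵥ x)) (𝓝[{x | x ⬝ᵥ x = 1}] x) (𝓝 0) := by
      have h3 := (hcw.tendsto.comp h1).const_mul 2
      have h4 := h3.const_sub 2
      rw [hf1] at h4
      simpa using h4
    have h3 : Tendsto (fun y : Fin n → ℝ => Real.sqrt (2 - 2 * f (y ⬝ᵥ x)))
        (𝓝[{x | x ⬝ᵥ x = 1}] x) (𝓝 0) := by
      have := h2.sqrt
      rwa [Real.sqrt_zero] at this
    refine h3.congr' ?_
    filter_upwards [self_mem_nhdsWithin] with y hy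
    rw [← norm_V_sub hf1 hV hy hx', Real.sqrt_sq (norm_nonneg _)]
  refine ⟨?_, hcV⟩
  set i0 : Fin n := ⟨0, by omega⟩
  set i1 : Fin n := ⟨1, by omega⟩
  have hne : i0 ≠ i1 := by simp [i0, i1]
  have he0 : (Pi.single i0 1 : Fin n → ℝ) ⬝ᵥ Pi.single i0 1 = 1 := by simp
  have hpc : Continuous (pt i0 i1) := by
    unfold pt
    fun_prop
  have h1 : ContinuousOn (fun t => V (pt i0 i1 t)) (Set.Icc (-1) 1) :=
    hcV.comp hpc.continuousOn (fun t ht => pt_unit hne ht)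
  have h2 : ContinuousOn (fun t => RCLike.re (inner ℂ (V (Pi.single i0 1)) (V (pt i0 i1 t))))
      (Set.Icc (-1) 1) :=
    RCLike.continuous_re.comp_continuousOn (continuousOn_const.inner (𝕜 := ℂ) h1)
  refine h2.congr fun t ht => ?_
  simp only
  rw [hV _ _ he0 (pt_unit hne ht), dotProduct_comm, pt_dot]
  simp [hne.symm]

end Pool.Agent.ClassOne
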