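import Mathlib

/-!
# MP_91ad52_an: class one unitary representations of the discrete group `SO(n)`, `n ≥ 4`
Common definitions and the exact statements of the modules.
Paper proof: /team-store/MP_91ad52_PROOF.md
-/

open Matrix MeasureTheory Filter Topology
open scoped InnerProductSpace

namespace Pool.Agent.ClassOne

/-- the special orthogonal group, as an abstract group of matrices -/
abbrev SO (n : ℕ) := Matrix.specialOrthogonalGroup (Fin n) ℝ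

/-- The data extracted from a class one representation: `V x` is the unit vector fixed by the
stabiliser of the unit vector `x`, and `⟪V x, V y⟫ = f (x ⬝ᵥ y)`. -/
structure SphData {n : ℕ} {H : Type*} [NormedAddCommGroup H] [InnerProductSpace ℂ H]
    (π : SO n →* (H ≃ₗᵢ[ℂ] H)) where
  V : (Fin n → ℝ) → H
  f : ℝ → ℝ
  inner_V : ∀ x y : Fin n → ℝ, x ⬝ᵥ x = 1 → y ⬝ᵥ y = 1 →
    inner ℂ (V x) (V y) = ((f (x ⬝ᵥ y) : ℝ) : ℂ)
  f_one : f 1 = 1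
  act : ∀ (g : SO n) (x : Fin n → ℝ), x ⬝ᵥ x = 1 → π g (V x) = V (g.1 *ᵥ x)
  fixed : ∀ x : Fin n → ℝ, x ⬝ᵥ x = 1 → ∀ w : H,
    (∀ g : SO n, g.1 *ᵥ x = x → π g w = w) → ∃ c : ℂ, w = c • V x

/-- Gegenbauer (ultraspherical) polynomials `C_k^{(lam)}` at `t`, by the standard recurrence
`(k+2) C_{k+2} = 2 (k+1+lam) t C_{k+1} - (k+2 lam) C_k`. -/
noncomputable def gegen (lam t : ℝ) : ℕ → ℝ
  | 0 => 1
  | 1 => 2 * lam * t
  | (k + 2) => (2 * (k + 1 + lam) * t * gegen lam t (k + 1) - (k + 2 * lam) * gegen lam t k)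
      / (k + 2)

/-- `kap n j = ∏_{i<j} (2i+1)/(n-1+2i)`: the moment of order `2j` of a coordinate on `S^{n-2}`. -/
noncomputable def kap (n : ℕ) (j : ℕ) : ℝ :=
  ∏ i ∈ Finset.range j, ((2 * i + 1 : ℝ) / ((n : ℝ) - 1 + 2 * i))

/-- explicit form of the normalised Gegenbauer polynomial -/
noncomputable def Gk (n k : ℕ) (t : ℝ) : ℝ :=
  ∑ j ∈ Finset.range (k / 2 + 1),
    (-1 : ℝ) ^ j * (k.choose (2 * j)) * kap n j * t ^ (k - 2 * j) * (1 - t ^ 2) ^ j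

/-- radial projection to the sphere -/
noncomputable def hat {n : ℕ} (x : Fin n → ℝ) : Fin n → ℝ := (Real.sqrt (x ⬝ᵥ x))⁻¹ • x

/-- the open unit ball for the euclidean norm -/
def ball (n : ℕ) : Set (Fin n → ℝ) := {x | x ⬝ᵥ x < 1}

/-- M1 (TwoPoint): `SO(n)`, `n ≥ 3`, is transitive on pairs of unit vectors at given angle. -/
def Stmt_TwoPoint : Prop :=
  ∀ (n : ℕ), 3 ≤ n → ∀ x y x' y' : Fin n → ℝ, x ⬝ᵥ x = 1 → y ⬝ᵥ y = 1 → x' ⬝ᵥ x' = 1 →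
    y' ⬝ᵥ y' = 1 → x ⬝ᵥ y = x' ⬝ᵥ y' → ∃ g : SO n, g.1 *ᵥ x = x' ∧ g.1 *ᵥ y = y'

/-- M3 (Limit): for `n ≥ 4` the function `f` has a left limit at `1`.  (No group needed.) -/
def Stmt_Limit.{u} : Prop :=
  ∀ (n : ℕ) (H : Type u) [NormedAddCommGroup H] [InnerProductSpace ℂ H]
    (V : (Fin n → ℝ) → H) (f : ℝ → ℝ), 4 ≤ n → f 1 = 1 →
    (∀ x y : Fin n → ℝ, x ⬝ᵥ x = 1 → y ⬝ᵥ y = 1 →
      inner ℂ (V x) (V y) = ((f (x ⬝ᵥ y) : ℝ) : ℂ)) →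
    ∃ a : ℝ, Tendsto f (𝓝[<] 1) (𝓝 a)

/-- M4 (Sq): the limit `a` satisfies `a ≤ a ^ 2` (min-norm point of the closed convex hull of
`{V y | y ⬝ᵥ x = t}` is fixed by the stabiliser of `x`, hence equals `f t • V x`). -/
def Stmt_Sq.{u} : Prop :=
  ∀ (n : ℕ) (H : Type u) [NormedAddCommGroup H] [InnerProductSpace ℂ H] [CompleteSpace H]
    (π : SO n →* (H ≃ₗᵢ[ℂ] H)) (D : SphData π) (a : ℝ), 3 ≤ n →
    Tendsto D.f (𝓝[<] 1) (𝓝 a) → a ≤ a ^ 2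

/-- M5 (Zero): if the limit is `≤ 0` then `f = 0` on `(-1,1)`.  (No group needed.) -/
def Stmt_Zero.{u} : Prop :=
  ∀ (n : ℕ) (H : Type u) [NormedAddCommGroup H] [InnerProductSpace ℂ H]
    (V : (Fin n → ℝ) → H) (f : ℝ → ℝ) (a : ℝ), 3 ≤ n → f 1 = 1 →
    (∀ x y : Fin n → ℝ, x ⬝ᵥ x = 1 → y ⬝ᵥ y = 1 →
      inner ℂ (V x) (V y) = ((f (x ⬝ᵥ y) : ℝ) : ℂ)) →
    Tendsto f (𝓝[<] 1) (𝓝 a) → a ≤ 0 → ∀ t ∈ Set.Ioo (-1 : ℝ) 1, f t = 0

/-- M6 (Inv): orthogonal matrices preserve the integral over the ball of functions of `hat x`. -/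
def Stmt_Inv.{u} : Prop :=
  ∀ (n : ℕ) (H : Type u) [NormedAddCommGroup H] [NormedSpace ℝ H] (F : (Fin n → ℝ) → H)
    (A : Matrix (Fin n) (Fin n) ℝ), A * Aᵀ = 1 →
    ∫ x in ball n, F (hat (A *ᵥ x)) = ∫ x in ball n, F (hat x)

/-- M7 (Moment): moments of the second coordinate of `hat x`, given the first one. -/
def Stmt_Moment : Prop :=
  ∀ (n : ℕ) (i0 i1 : Fin n), i0 ≠ i1 → 3 ≤ n → ∀ (h : ℝ → ℝ), ContinuousOn h (Set.Icc (-1) 1) →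
    (∀ j : ℕ, ∫ x in ball n, h (hat x i0) * (hat x i1) ^ (2 * j) =
      kap n j * ∫ x in ball n, h (hat x i0) * (1 - (hat x i0) ^ 2) ^ j) ∧
    (∀ j : ℕ, ∫ x in ball n, h (hat x i0) * (hat x i1) ^ (2 * j + 1) = 0)

/-- M8 (Cont): if the limit is `1`, then `f` is continuous on `[-1,1]`. -/
def Stmt_Cont.{u} : Prop :=
  ∀ (n : ℕ) (H : Type u) [NormedAddCommGroup H] [InnerProductSpace ℂ H]
    (V : (Fin n → ℝ) → H) (f : ℝ → ℝ), 3 ≤ n → f 1 = 1 →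
    (∀ x y : Fin n → ℝ, x ⬝ᵥ x = 1 → y ⬝ᵥ y = 1 →
      inner ℂ (V x) (V y) = ((f (x ⬝ᵥ y) : ℝ) : ℂ)) →
    Tendsto f (𝓝[<] 1) (𝓝 1) →
    ContinuousOn f (Set.Icc (-1) 1) ∧ ContinuousOn V {x | x ⬝ᵥ x = 1}

/-- M9 (Prod): Funk-Hecke type identity for `f` (Bochner integral of `V (hat x)` against
`(hat x i0)^m` is fixed by the stabiliser of `e_{i0}`). -/
def Stmt_Prod.{u} : Prop :=
  ∀ (n : ℕ) (H : Type u) [NormedAddCommGroup H] [InnerProductSpace ℂ H] [CompleteSpace H]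
    (π : SO n →* (H ≃ₗᵢ[ℂ] H)) (D : SphData π), 3 ≤ n →
    Tendsto D.f (𝓝[<] 1) (𝓝 1) → ∀ (i0 i1 : Fin n), i0 ≠ i1 → ∀ (m : ℕ) (t : ℝ),
    t ∈ Set.Icc (-1 : ℝ) 1 →
    (∫ x in ball n, (hat x i0) ^ m * D.f (hat x i0)) * D.f t =
      ∫ x in ball n, (t * hat x i0 + Real.sqrt (1 - t ^ 2) * hat x i1) ^ m * D.f (hat x i0)

/-- M10 (Fin): conclusion of the continuous case from M7 and M9. -/
def Stmt_Fin : Prop :=
  ∀ (n : ℕ) (i0 i1 : Fin n) (f : ℝ → ℝ), i0 ≠ i1 → 3 ≤ n → f 1 = 1 →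
    ContinuousOn f (Set.Icc (-1) 1) →
    (∀ (m : ℕ) (t : ℝ), t ∈ Set.Icc (-1 : ℝ) 1 →
      (∫ x in ball n, (hat x i0) ^ m * f (hat x i0)) * f t =
        ∫ x in ball n, (t * hat x i0 + Real.sqrt (1 - t ^ 2) * hat x i1) ^ m * f (hat x i0)) →
    ∃ k : ℕ, ∀ t ∈ Set.Icc (-1 : ℝ) 1, f t = Gk n k t

/-- M11 (Gegen): `Gk` is the normalised Gegenbauer polynomial. -/
def Stmt_Gegen : Prop :=
  ∀ (n k : ℕ) (t : ℝ), 3 ≤ n →
    gegen (((n : ℝ) - 2) / 2) 1 k ≠ 0 ∧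
    Gk n k t = gegen (((n : ℝ) - 2) / 2) t k / gegen (((n : ℝ) - 2) / 2) 1 k

/-- the stabiliser of `e_{i0}`, i.e. the block matrices `diag(1, A)`, `A ∈ SO(n-1)` -/
def FixesE {n : ℕ} (i0 : Fin n) (g : SO n) : Prop :=
  ∀ i, g.1 i i0 = if i = i0 then 1 else 0

/-- the space of vectors fixed by the stabiliser of `e_{i0}` -/
def fixedSpace {n : ℕ} {H : Type*} [NormedAddCommGroup H] [InnerProductSpace ℂ H]
    (π : SO n →* (H ≃ₗᵢ[ℂ] H)) (i0 : Fin n) : Submodule ℂ H where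
  carrier := {w | ∀ g : SO n, FixesE i0 g → π g w = w}
  zero_mem' := by intro g _; simp
  add_mem' := by
    intro a b ha hb g hg
    rw [map_add, ha g hg, hb g hg]
  smul_mem' := by
    intro c a ha g hg
    rw [map_smul, ha g hg]

/-- M2 (Build): a class one representation gives `SphData`. -/
def Stmt_Build.{u} : Prop :=
  ∀ (n : ℕ) (H : Type u) [NormedAddCommGroup H] [InnerProductSpace ℂ H]
    (π : SO n →* (H ≃ₗᵢ[ℂ] H)) (i0 : Fin n), 3 ≤ n →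
    Module.finrank ℂ (fixedSpace π i0) = 1 → ∀ v ∈ fixedSpace π i0, ‖v‖ = 1 →
    ∃ D : SphData π, D.V (Pi.single i0 1) = v

end Pool.Agent.ClassOne
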