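import Mathlib
import Pool.Agent.ClassOne.Defs

/-! M7 (Moment): moments of the second coordinate of `hat x`, given the first one. -/

set_option autoImplicit false
set_option linter.unusedSimpArgs false
set_option linter.unusedVariables false

open Matrix MeasureTheory Filter Topology

namespace Pool.Agent.ClassOne

namespace MomentM

variable {n : ℕ}

theorem isOpen_ball : IsOpen (ball n) := by
  have h : Continuous (fun x : Fin n → ℝ => x ⬝ᵥ x) := by
    unfold dotProduct; fun_prop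
  exact isOpen_lt h continuous_const

theorem measurable_hat : Measurable (hat : (Fin n → ℝ) → (Fin n → ℝ)) := by
  have h : Measurable (fun x : Fin n → ℝ => x ⬝ᵥ x) := by
    unfold dotProduct; fun_prop
  unfold hat
  exact ((Real.continuous_sqrt.measurable.comp h).inv).smul measurable_id

theorem sq_le_dot (x : Fin n → ℝ) (i : Fin n) : x i * x i ≤ x ⬝ᵥ x :=
  Finset.single_le_sum (f := fun i => x i * x i) (fun j _ => mul_self_nonneg _)
    (Finset.mem_univ i)

theorem dot_nonneg (x : Fin n → ℝ) : 0 ≤ x ⬝ᵥ x :=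
  Finset.sum_nonneg fun i _ => mul_self_nonneg _

theorem hat_dot (x : Fin n → ℝ) (hx : x ⬝ᵥ x ≠ 0) : hat x ⬝ᵥ hat x = 1 := by
  unfold hat
  rw [smul_dotProduct, dotProduct_smul, smul_eq_mul, smul_eq_mul]
  have h1 : Real.sqrt (x ⬝ᵥ x) * Real.sqrt (x ⬝ᵥ x) = x ⬝ᵥ x := Real.mul_self_sqrt (dot_nonneg x)
  have h2 : Real.sqrt (x ⬝ᵥ x) ≠ 0 := by
    intro h; rw [h] at h1; apply hx; rw [← h1]; ring
  field_simp
  nlinarith [h1]

theorem hat_dot_le (x : Fin n → ℝ) : hat x ⬝ᵥ hat x ≤ 1 := by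
  by_cases hx : x ⬝ᵥ x = 0
  · have : hat x = 0 := by
      unfold hat; rw [hx]; simp
    rw [this]; simp
  · exact (hat_dot x hx).le

theorem abs_hat_le (x : Fin n → ℝ) (i : Fin n) : |hat x i| ≤ 1 := by
  have h := (sq_le_dot (hat x) i).trans (hat_dot_le x)
  exact abs_le_one_iff_mul_self_le_one.mpr h

theorem hat_mem (x : Fin n → ℝ) (i : Fin n) : hat x i ∈ Set.Icc (-1 : ℝ) 1 :=
  abs_le.mp (abs_hat_le x i)

theorem ball_subset : ball n ⊆ Set.Icc (fun _ => (-1 : ℝ)) (fun _ => 1) := by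
  intro x hx
  have h : ∀ i, |x i| ≤ 1 := fun i =>
    abs_le_one_iff_mul_self_le_one.mpr ((sq_le_dot x i).trans (le_of_lt hx))
  exact ⟨fun i => (abs_le.mp (h i)).1, fun i => (abs_le.mp (h i)).2⟩

theorem volume_ball_lt : volume (ball n) < ⊤ :=
  lt_of_le_of_lt (measure_mono ball_subset) (isCompact_Icc.measure_lt_top)

theorem integrable_hat (F : (Fin n → ℝ) → ℝ) (hF : Continuous F) :
    IntegrableOn (fun x => F (hat x)) (ball n) := by
  obtain ⟨C, hC⟩ := (isCompact_Icc (a := fun _ : Fin n => (-1 : ℝ)) (b := fun _ => 1)).exists_bound_of_continuousOn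
    hF.continuousOn
  refine Measure.integrableOn_of_bounded (M := C) volume_ball_lt.ne
    (hF.measurable.comp measurable_hat).aestronglyMeasurable ?_
  refine Eventually.of_forall fun x => hC _ ?_
  exact ⟨fun i => (hat_mem x i).1, fun i => (hat_mem x i).2⟩

/-- rotation in the plane `(i1, i2)` -/
noncomputable def rot (i1 i2 : Fin n) (a b : ℝ) : Matrix (Fin n) (Fin n) ℝ :=
  fun i => if i = i1 then a • Pi.single i1 1 + b • Pi.single i2 1
    else if i = i2 then (-b) • Pi.single i1 1 + a • Pi.single i2 1 else Pi.single i 1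

theorem rot_orth (i1 i2 : Fin n) (h12 : i1 ≠ i2) (a b : ℝ) (hab : a ^ 2 + b ^ 2 = 1) :
    rot i1 i2 a b * (rot i1 i2 a b)ᵀ = 1 := by
  ext i j
  have h : (rot i1 i2 a b * (rot i1 i2 a b)ᵀ) i j = rot i1 i2 a b i ⬝ᵥ rot i1 i2 a b j := rfl
  rw [h, Matrix.one_apply]
  unfold rot
  have hab' : a * a + b * b = 1 := by nlinarith
  by_cases hi1 : i = i1
  · subst hi1
    by_cases hj1 : j = i
    · subst hj1
      simp [add_dotProduct, smul_dotProduct, h12, h12.symm, hab']
    · by_cases hj2 : j = i2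
      · subst hj2
        simp [add_dotProduct, smul_dotProduct, h12, h12.symm, hj1]
        ring
      · simp [add_dotProduct, smul_dotProduct, h12, h12.symm, hj1, hj2, Ne.symm hj1, Ne.symm hj2]
  · by_cases hi2 : i = i2
    · subst hi2
      by_cases hj1 : j = i1
      · subst hj1
        simp [add_dotProduct, smul_dotProduct, h12, h12.symm]
        ring
      · by_cases hj2 : j = i
        · subst hj2
          simp [add_dotProduct, smul_dotProduct, h12, h12.symm]
          nlinarith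
        · simp [add_dotProduct, smul_dotProduct, h12, h12.symm, hj1, hj2, Ne.symm hj1, Ne.symm hj2]
    · by_cases hj1 : j = i1
      · subst hj1
        simp [h12, h12.symm, hi1, hi2]
      · by_cases hj2 : j = i2
        · subst hj2
          simp [h12, h12.symm, hi1, hi2]
        · simp [hi1, hi2, hj1, hj2, Pi.single_apply, eq_comm]

theorem mulVec_eq (A : Matrix (Fin n) (Fin n) ℝ) (w : Fin n → ℝ) (i : Fin n) :
    (A *ᵥ w) i = A i ⬝ᵥ w := rfl

theorem rot_i1 (i1 i2 : Fin n) (a b : ℝ) (w : Fin n → ℝ) :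
    (rot i1 i2 a b *ᵥ w) i1 = a * w i1 + b * w i2 := by
  rw [mulVec_eq]
  simp [rot, add_dotProduct, smul_dotProduct]

theorem rot_i0 (i1 i2 i0 : Fin n) (h1 : i0 ≠ i1) (h2 : i0 ≠ i2) (a b : ℝ) (w : Fin n → ℝ) :
    (rot i1 i2 a b *ᵥ w) i0 = w i0 := by
  rw [mulVec_eq]
  simp [rot, h1, h2]

theorem hat_mulVec (A : Matrix (Fin n) (Fin n) ℝ) (hA : A * Aᵀ = 1) (x : Fin n → ℝ) :
    hat (A *ᵥ x) = A *ᵥ hat x := by
  have hA' : Aᵀ * A = 1 := mul_eq_one_comm.mp hA
  have h : (A *ᵥ x) ⬝ᵥ (A *ᵥ x) = x ⬝ᵥ x := by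
    rw [Matrix.dotProduct_mulVec, Matrix.vecMul_mulVec, hA', Matrix.vecMul_one]
  unfold hat
  rw [h, Matrix.mulVec_smul]

/-- the basic rotation invariance -/
theorem rot_inv (hInv : Stmt_Inv.{0}) (i0 i1 i2 : Fin n) (h01 : i0 ≠ i1) (h02 : i0 ≠ i2)
    (h12 : i1 ≠ i2) (a b : ℝ) (hab : a ^ 2 + b ^ 2 = 1) (g : ℝ → ℝ → ℝ) :
    ∫ x in ball n, g (hat x i0) (a * hat x i1 + b * hat x i2) =
      ∫ x in ball n, g (hat x i0) (hat x i1) := by
  have h := hInv n ℝ (fun w => g (w i0) (w i1)) (rot i1 i2 a b) (rot_orth i1 i2 h12 a b hab)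
  rw [← h]
  congr 1
  funext x
  rw [hat_mulVec _ (rot_orth i1 i2 h12 a b hab), rot_i1, rot_i0 i1 i2 i0 h01 h02]

theorem exists_third (hn : 3 ≤ n) (i0 i1 : Fin n) : ∃ i2 : Fin n, i0 ≠ i2 ∧ i1 ≠ i2 := by
  have hc : ({i0, i1} : Finset (Fin n)).card < (Finset.univ : Finset (Fin n)).card := by
    refine lt_of_le_of_lt (Finset.card_le_two) ?_
    rw [Finset.card_univ, Fintype.card_fin]; omega
  obtain ⟨i2, -, h2⟩ := Finset.exists_mem_notMem_of_card_lt_card hc
  simp only [Finset.mem_insert, Finset.mem_singleton, not_or] at h2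
  exact ⟨i2, Ne.symm h2.1, Ne.symm h2.2⟩

theorem odd_moment (hInv : Stmt_Inv.{0}) (hn : 3 ≤ n) (i0 i1 : Fin n) (h01 : i0 ≠ i1)
    (h : ℝ → ℝ) (j : ℕ) :
    ∫ x in ball n, h (hat x i0) * (hat x i1) ^ (2 * j + 1) = 0 := by
  obtain ⟨i2, h02, h12⟩ := exists_third hn i0 i1
  have h1 := rot_inv hInv i0 i1 i2 h01 h02 h12 (-1) 0 (by norm_num)
    (fun s t => h s * t ^ (2 * j + 1))
  have h2 : ∀ x : Fin n → ℝ, h (hat x i0) * (-1 * hat x i1 + 0 * hat x i2) ^ (2 * j + 1)
      = - (h (hat x i0) * (hat x i1) ^ (2 * j + 1)) := by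
    intro x
    have : (-1 * hat x i1 + 0 * hat x i2) = - hat x i1 := by ring
    rw [this, Odd.neg_pow ⟨j, rfl⟩]; ring
  simp only [h2] at h1
  rw [integral_neg] at h1
  linarith

/-- mixed moments -/
noncomputable def M (h : ℝ → ℝ) (i0 i1 i2 : Fin n) (p q : ℕ) : ℝ :=
  ∫ x in ball n, h (hat x i0) * ((hat x i1) ^ p * (hat x i2) ^ q)

theorem cont_term (h : ℝ → ℝ) (hh : Continuous h) (i0 i1 i2 : Fin n) (p q : ℕ) :
    Continuous fun w : Fin n → ℝ => h (w i0) * ((w i1) ^ p * (w i2) ^ q) := by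
  fun_prop

theorem expand (hInv : Stmt_Inv.{0}) (i0 i1 i2 : Fin n) (h01 : i0 ≠ i1) (h02 : i0 ≠ i2)
    (h12 : i1 ≠ i2) (h : ℝ → ℝ) (hh : Continuous h) (j : ℕ) (b : ℝ) :
    ∑ l ∈ Finset.range (2 * j + 3), ((2 * j + 2).choose l : ℝ) * M h i0 i1 i2 l (2 * j + 2 - l)
      * b ^ (2 * j + 2 - l) = (1 + b ^ 2) ^ (j + 1) * M h i0 i1 i2 (2 * j + 2) 0 := by
  have hpos : 0 < 1 + b ^ 2 := by positivity
  set r := Real.sqrt (1 + b ^ 2) with hr
  have hr2 : r ^ 2 = 1 + b ^ 2 := Real.sq_sqrt hpos.le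
  have hr0 : r ≠ 0 := (Real.sqrt_pos.mpr hpos).ne'
  have h1 := rot_inv hInv i0 i1 i2 h01 h02 h12 (1 / r) (b / r) (by
    rw [div_pow, div_pow, ← add_div, hr2]; field_simp) (fun s t => h s * t ^ (2 * j + 2))
  have h2 : ∀ x : Fin n → ℝ, h (hat x i0) * (1 / r * hat x i1 + b / r * hat x i2) ^ (2 * j + 2)
      = ((1 + b ^ 2) ^ (j + 1))⁻¹ * ∑ l ∈ Finset.range (2 * j + 3),
        ((2 * j + 2).choose l : ℝ) * b ^ (2 * j + 2 - l) *
          (h (hat x i0) * ((hat x i1) ^ l * (hat x i2) ^ (2 * j + 2 - l))) := by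
    intro x
    have e1 : 1 / r * hat x i1 + b / r * hat x i2 = (hat x i1 + b * hat x i2) / r := by
      field_simp
    have e2 : r ^ (2 * j + 2) = (1 + b ^ 2) ^ (j + 1) := by
      rw [show 2 * j + 2 = 2 * (j + 1) by ring, pow_mul, hr2]
    rw [e1, div_pow, e2, add_pow, Finset.mul_sum, div_eq_mul_inv, Finset.sum_mul, Finset.mul_sum]
    refine Finset.sum_congr rfl fun l _ => ?_
    rw [mul_pow]; ring
  simp only [h2] at h1
  rw [integral_const_mul, integral_finsetSum] at h1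
  · simp only [integral_const_mul] at h1
    have h3 : ∫ x in ball n, h (hat x i0) * hat x i1 ^ (2 * j + 2) = M h i0 i1 i2 (2 * j + 2) 0 := by
      unfold M; simp
    rw [h3] at h1
    rw [← h1, ← mul_assoc, mul_inv_cancel₀ (pow_ne_zero _ hpos.ne'), one_mul]
    refine Finset.sum_congr rfl fun l _ => ?_
    unfold M; ring
  · intro l _
    exact (integrable_hat _ (cont_term h hh i0 i1 i2 _ _)).const_mul _

theorem second (hInv : Stmt_Inv.{0}) (i0 i1 i2 : Fin n) (h01 : i0 ≠ i1) (h02 : i0 ≠ i2)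
    (h12 : i1 ≠ i2) (h : ℝ → ℝ) (hh : Continuous h) (j : ℕ) :
    (2 * j + 1) * M h i0 i1 i2 (2 * j) 2 = M h i0 i1 i2 (2 * j + 2) 0 := by
  classical
  let P : Polynomial ℝ := ∑ l ∈ Finset.range (2 * j + 3),
    Polynomial.C (((2 * j + 2).choose l : ℝ) * M h i0 i1 i2 l (2 * j + 2 - l)) *
      Polynomial.X ^ (2 * j + 2 - l)
  let Q : Polynomial ℝ := Polynomial.C (M h i0 i1 i2 (2 * j + 2) 0) * (1 + Polynomial.X ^ 2) ^ (j + 1)
  have hPQ : P = Q := by
    refine Polynomial.funext fun b => ?_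
    have := expand hInv i0 i1 i2 h01 h02 h12 h hh j b
    simp only [P, Q, Polynomial.eval_finsetSum, Polynomial.eval_mul, Polynomial.eval_C,
      Polynomial.eval_pow, Polynomial.eval_X, Polynomial.eval_add, Polynomial.eval_one]
    rw [this]; ring
  have hc := congrArg (fun R : Polynomial ℝ => R.coeff 2) hPQ
  simp only [P, Q, Polynomial.finsetSum_coeff, Polynomial.coeff_C_mul, Polynomial.coeff_X_pow] at hc
  rw [Finset.sum_eq_single (2 * j)] at hc
  · rw [if_pos (by omega)] at hc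
    have hcoef : ((1 + Polynomial.X ^ 2 : Polynomial ℝ) ^ (j + 1)).coeff 2 = (j + 1 : ℝ) := by
      rw [add_comm, add_pow]
      simp only [Polynomial.finsetSum_coeff, one_pow, mul_one]
      rw [Finset.sum_eq_single 1]
      · rw [pow_one, Polynomial.coeff_mul_natCast]
        simp
      · intro k _ hk
        rw [← pow_mul, Polynomial.coeff_mul_natCast, Polynomial.coeff_X_pow, if_neg (by omega)]
        simp
      · intro hk; exact absurd (Finset.mem_range.mpr (by omega)) hk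
    rw [hcoef] at hc
    have hch : ((2 * j + 2).choose (2 * j) : ℝ) = (2 * j + 1) * (j + 1) := by
      have h1 : (2 * j + 2).choose (2 * j) = (2 * j + 2).choose 2 :=
        Nat.choose_symm_of_eq_add (by ring)
      rw [h1, Nat.cast_choose_two]
      push_cast; ring
    rw [hch, show 2 * j + 2 - 2 * j = 2 by omega] at hc
    have hj : (j + 1 : ℝ) ≠ 0 := by positivity
    have : (j + 1 : ℝ) * ((2 * j + 1) * M h i0 i1 i2 (2 * j) 2) =
        (j + 1) * M h i0 i1 i2 (2 * j + 2) 0 := by linarith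
    exact mul_left_cancel₀ hj this
  · intro l hl hne
    rw [if_neg, mul_zero]
    have := Finset.mem_range.mp hl
    omega
  · intro hk; exact absurd (Finset.mem_range.mpr (by omega)) hk

theorem sum_sq (x : Fin n → ℝ) (hx : x ⬝ᵥ x ≠ 0) (i0 : Fin n) :
    1 - (hat x i0) ^ 2 = ∑ i ∈ Finset.univ.erase i0, (hat x i) ^ 2 := by
  have h := hat_dot x hx
  unfold dotProduct at h
  rw [← Finset.add_sum_erase _ _ (Finset.mem_univ i0)] at h
  have h2 : ∑ i ∈ Finset.univ.erase i0, (hat x i) ^ 2 =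
      ∑ i ∈ Finset.univ.erase i0, hat x i * hat x i :=
    Finset.sum_congr rfl fun i _ => by ring
  rw [h2]; linarith

theorem ae_ne (hn : 3 ≤ n) : ∀ᵐ x ∂(volume.restrict (ball n)), x ⬝ᵥ x ≠ 0 := by
  have : Nonempty (Fin n) := ⟨⟨0, by omega⟩⟩
  have h0 : ∀ᵐ x ∂(volume : Measure (Fin n → ℝ)), x ≠ 0 := by
    rw [ae_iff]; simp
  refine ae_restrict_of_ae (h0.mono fun x hx h => hx ?_)
  funext i
  have := sq_le_dot x i
  rw [h] at this
  exact mul_self_eq_zero.mp (le_antisymm this (mul_self_nonneg _))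

theorem recur (hInv : Stmt_Inv.{0}) (hn : 3 ≤ n) (i0 i1 : Fin n) (h01 : i0 ≠ i1)
    (h : ℝ → ℝ) (hh : Continuous h) (j : ℕ) :
    ((n : ℝ) - 1 + 2 * j) * ∫ x in ball n, h (hat x i0) * (hat x i1) ^ (2 * j + 2) =
      (2 * j + 1) * ∫ x in ball n, (h (hat x i0) * (1 - (hat x i0) ^ 2)) * (hat x i1) ^ (2 * j) := by
  have h1 : ∫ x in ball n, (h (hat x i0) * (1 - (hat x i0) ^ 2)) * (hat x i1) ^ (2 * j) =
      ∫ x in ball n, ∑ i ∈ Finset.univ.erase i0,
        h (hat x i0) * ((hat x i1) ^ (2 * j) * (hat x i) ^ 2) := by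
    refine integral_congr_ae ((ae_ne hn).mono fun x hx => ?_)
    simp only
    rw [sum_sq x hx i0, Finset.mul_sum, Finset.sum_mul]
    exact Finset.sum_congr rfl fun i _ => by ring
  rw [h1, integral_finsetSum _ (fun i _ =>
    integrable_hat _ (cont_term h hh i0 i1 i (2 * j) 2))]
  have hmem : i1 ∈ Finset.univ.erase i0 := Finset.mem_erase.mpr ⟨h01.symm, Finset.mem_univ _⟩
  rw [← Finset.add_sum_erase _ _ hmem]
  set B := ∫ x in ball n, h (hat x i0) * (hat x i1) ^ (2 * j + 2) with hB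
  have e1 : ∫ x in ball n, h (hat x i0) * ((hat x i1) ^ (2 * j) * (hat x i1) ^ 2) = B := by
    rw [hB]; congr 1; funext x; rw [← pow_add]
  have e2 : ∀ i ∈ (Finset.univ.erase i0).erase i1,
      ∫ x in ball n, h (hat x i0) * ((hat x i1) ^ (2 * j) * (hat x i) ^ 2) = B / (2 * j + 1) := by
    intro i hi
    rw [Finset.mem_erase, Finset.mem_erase] at hi
    have := second hInv i0 i1 i h01 (Ne.symm hi.2.1) (Ne.symm hi.1) h hh j
    have h3 : M h i0 i1 i (2 * j + 2) 0 = B := by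
      rw [hB]; unfold M; simp
    rw [h3] at this
    have hj : (2 * j + 1 : ℝ) ≠ 0 := by positivity
    rw [eq_div_iff hj, ← this]
    unfold M; ring
  rw [e1, Finset.sum_congr rfl e2, Finset.sum_const, Finset.card_erase_of_mem hmem,
    Finset.card_erase_of_mem (Finset.mem_univ _), Finset.card_univ, Fintype.card_fin, nsmul_eq_mul]
  have hj : (2 * j + 1 : ℝ) ≠ 0 := by positivity
  have hcast : ((n - 1 - 1 : ℕ) : ℝ) = (n : ℝ) - 2 := by
    rw [Nat.sub_sub, Nat.cast_sub (by omega)]; norm_num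
  rw [hcast]
  field_simp
  ring

theorem even_moment (hInv : Stmt_Inv.{0}) (hn : 3 ≤ n) (i0 i1 : Fin n) (h01 : i0 ≠ i1) (j : ℕ) :
    ∀ (h : ℝ → ℝ), Continuous h → ∫ x in ball n, h (hat x i0) * (hat x i1) ^ (2 * j) =
      kap n j * ∫ x in ball n, h (hat x i0) * (1 - (hat x i0) ^ 2) ^ j := by
  induction j with
  | zero => intro h _; simp [kap]
  | succ j ih =>
    intro h hh
    have h1 := recur hInv hn i0 i1 h01 h hh j
    have h2 := ih (fun t => h t * (1 - t ^ 2)) (by fun_prop)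
    rw [h2] at h1
    have hpos : ((n : ℝ) - 1 + 2 * j) ≠ 0 := by
      have h3 : (3 : ℝ) ≤ n := by exact_mod_cast hn
      have h4 : (0 : ℝ) ≤ j := Nat.cast_nonneg j
      intro h5
      linarith
    have h3 : kap n (j + 1) = kap n j * ((2 * j + 1 : ℝ) / ((n : ℝ) - 1 + 2 * j)) := by
      unfold kap; rw [Finset.prod_range_succ]
    rw [h3, show 2 * (j + 1) = 2 * j + 2 by ring]
    have h4 : ∫ x in ball n, h (hat x i0) * (1 - (hat x i0) ^ 2) ^ (j + 1) =
        ∫ x in ball n, h (hat x i0) * (1 - (hat x i0) ^ 2) * (1 - (hat x i0) ^ 2) ^ j := by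
      congr 1; funext x; ring
    rw [h4]
    field_simp
    linarith

end MomentM

open MomentM in
theorem Moment_proof (hInv : Stmt_Inv.{0}) : Stmt_Moment := by
  intro n i0 i1 h01 hn h hc
  let h' : ℝ → ℝ := Set.IccExtend (show (-1 : ℝ) ≤ 1 by norm_num) ((Set.Icc (-1 : ℝ) 1).domRestrict h)
  have hh' : Continuous h' := by
    refine Continuous.Icc_extend' ?_
    exact continuousOn_iff_continuous_domRestrict.mp hc
  have heq : ∀ x : Fin n → ℝ, h (hat x i0) = h' (hat x i0) := by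
    intro x
    have := Set.IccExtend_of_mem (show (-1 : ℝ) ≤ 1 by norm_num)
      ((Set.Icc (-1 : ℝ) 1).domRestrict h) (hat_mem x i0)
    simp only [h']
    rw [this]; rfl
  simp only [heq]
  exact ⟨fun j => even_moment hInv hn i0 i1 h01 j h' hh',
    fun j => odd_moment hInv hn i0 i1 h01 h' j⟩

end Pool.Agent.ClassOne
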