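import Mathlib
import Pool.Agent.ClassOne.Defs
import Pool.Agent.ClassOne.Moment

set_option autoImplicit false

open Matrix MeasureTheory Filter Topology

namespace Pool.Agent.ClassOne

namespace FinM

variable {n : ℕ}

theorem sum_even (F : ℕ → ℝ) (hF : ∀ i, Odd i → F i = 0) (k : ℕ) :
    ∑ i ∈ Finset.range (k + 1), F i = ∑ j ∈ Finset.range (k / 2 + 1), F (2 * j) := by
  induction k with
  | zero => simp
  | succ k ih =>
    rw [Finset.sum_range_succ, ih]
    rcases Nat.even_or_odd (k + 1) with h | h
    · obtain ⟨m, hm⟩ := h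
      have h1 : (k + 1) / 2 = k / 2 + 1 := by omega
      rw [h1, Finset.sum_range_succ (fun j => F (2 * j)) (k / 2 + 1)]
      congr 2
      omega
    · rw [hF _ h, add_zero]
      obtain ⟨m, hm⟩ := h
      have h1 : (k + 1) / 2 = k / 2 := by omega
      rw [h1]

/-- integrals of continuous functions of `hat x i0`, `hat x i1` -/
theorem integ (i0 i1 : Fin n) (F : ℝ → ℝ → ℝ) (hF : Continuous (fun p : ℝ × ℝ => F p.1 p.2)) :
    IntegrableOn (fun x => F (hat x i0) (hat x i1)) (ball n) := by
  apply MomentM.integrable_hat (fun w => F (w i0) (w i1))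
  exact hF.comp (by fun_prop : Continuous (fun w : Fin n → ℝ => (w i0, w i1)))

theorem integ1 (i0 : Fin n) (F : ℝ → ℝ) (hF : Continuous F) :
    IntegrableOn (fun x => F (hat x i0)) (ball n) := by
  apply MomentM.integrable_hat (fun w => F (w i0))
  exact hF.comp (by fun_prop)

theorem Kind (i0 : Fin n) (g : ℝ → ℝ) (hg : Continuous g) (k : ℕ)
    (hk : ∀ m < k, ∫ x in ball n, (hat x i0) ^ m * g (hat x i0) = 0) :
    ∀ (j p : ℕ), (p + 2 * j < k →
        ∫ x in ball n, (hat x i0) ^ p * g (hat x i0) * (1 - (hat x i0) ^ 2) ^ j = 0) ∧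
      (p + 2 * j = k →
        ∫ x in ball n, (hat x i0) ^ p * g (hat x i0) * (1 - (hat x i0) ^ 2) ^ j =
          (-1) ^ j * ∫ x in ball n, (hat x i0) ^ k * g (hat x i0)) := by
  intro j
  induction j with
  | zero =>
    intro p
    constructor
    · intro h
      simpa using hk p (by omega)
    · intro h
      have : p = k := by omega
      subst this
      simp
  | succ j ih =>
    intro p
    have hrec : ∫ x in ball n, (hat x i0) ^ p * g (hat x i0) * (1 - (hat x i0) ^ 2) ^ (j + 1) =
        (∫ x in ball n, (hat x i0) ^ p * g (hat x i0) * (1 - (hat x i0) ^ 2) ^ j) -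
        ∫ x in ball n, (hat x i0) ^ (p + 2) * g (hat x i0) * (1 - (hat x i0) ^ 2) ^ j := by
      rw [← integral_sub]
      · congr 1
        ext x
        ring
      · exact integ1 i0 (fun u => u ^ p * g u * (1 - u ^ 2) ^ j) (by fun_prop)
      · exact integ1 i0 (fun u => u ^ (p + 2) * g u * (1 - u ^ 2) ^ j) (by fun_prop)
    constructor
    · intro h
      rw [hrec, (ih p).1 (by omega), (ih (p + 2)).1 (by omega), sub_zero]
    · intro h
      rw [hrec, (ih p).1 (by omega), (ih (p + 2)).2 (by omega), pow_succ]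
      ring

theorem poly_zero (i0 : Fin n) (g : ℝ → ℝ) (hg : Continuous g)
    (h : ∀ m, ∫ x in ball n, (hat x i0) ^ m * g (hat x i0) = 0) (p : Polynomial ℝ) :
    ∫ x in ball n, p.eval (hat x i0) * g (hat x i0) = 0 := by
  induction p using Polynomial.induction_on' with
  | add p q hp hq =>
    have : (fun x : Fin n → ℝ => (p + q).eval (hat x i0) * g (hat x i0)) =
        fun x => p.eval (hat x i0) * g (hat x i0) + q.eval (hat x i0) * g (hat x i0) := by
      ext x; rw [Polynomial.eval_add]; ring
    rw [this, integral_add, hp, hq, add_zero]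
    · exact integ1 i0 (fun u => p.eval u * g u) (by fun_prop)
    · exact integ1 i0 (fun u => q.eval u * g u) (by fun_prop)
  | monomial m a =>
    have : (fun x : Fin n → ℝ => (Polynomial.monomial m a).eval (hat x i0) * g (hat x i0)) =
        fun x => a * ((hat x i0) ^ m * g (hat x i0)) := by
      ext x; rw [Polynomial.eval_monomial]; ring
    rw [this, integral_const_mul, h m, mul_zero]

theorem exists_ne (i0 : Fin n) (g : ℝ → ℝ) (hg : Continuous g) (hg1 : g 1 = 1) :
    ∃ m, ∫ x in ball n, (hat x i0) ^ m * g (hat x i0) ≠ 0 := by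
  by_contra hcon
  push Not at hcon
  -- bound for g
  obtain ⟨C, hC⟩ := (isCompact_Icc (a := (-1 : ℝ)) (b := 1)).exists_bound_of_continuousOn
    hg.continuousOn
  have hCx : ∀ x : Fin n → ℝ, |g (hat x i0)| ≤ C := fun x => hC _ (MomentM.hat_mem x i0)
  have hC0 : 0 ≤ C := (abs_nonneg _).trans (hC 1 (by norm_num))
  set vol := (volume (ball n)).toReal with hvol
  have hvol0 : 0 ≤ vol := ENNReal.toReal_nonneg
  have hsq : ∫ x in ball n, g (hat x i0) * g (hat x i0) = 0 := by
    apply le_antisymm _ (integral_nonneg fun x => mul_self_nonneg _)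
    apply le_of_forall_pos_le_add
    intro ε hε
    obtain ⟨p, hp⟩ := exists_polynomial_near_of_continuousOn (-1) 1 g hg.continuousOn
      (ε / (C * vol + 1)) (by positivity)
    have h1 : ∫ x in ball n, g (hat x i0) * g (hat x i0) =
        ∫ x in ball n, (g (hat x i0) - p.eval (hat x i0)) * g (hat x i0) := by
      have h2 := poly_zero i0 g hg hcon p
      rw [← sub_zero (∫ x in ball n, g (hat x i0) * g (hat x i0)), ← h2, ← integral_sub]
      · congr 1
        ext x; ring
      · exact integ1 i0 (fun u => g u * g u) (by fun_prop)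
      · exact integ1 i0 (fun u => p.eval u * g u) (by fun_prop)
    rw [h1, zero_add]
    have h3 : ‖∫ x in ball n, (g (hat x i0) - p.eval (hat x i0)) * g (hat x i0)‖ ≤
        (ε / (C * vol + 1) * C) * (volume (ball n)).toReal := by
      apply norm_setIntegral_le_of_norm_le_const MomentM.volume_ball_lt
      intro x _
      rw [norm_mul]
      apply mul_le_mul _ (hCx x) (abs_nonneg _) (by positivity)
      rw [Real.norm_eq_abs, abs_sub_comm]
      exact (hp _ (MomentM.hat_mem x i0)).le
    refine (le_abs_self _).trans (h3.trans ?_)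
    rw [← hvol, div_mul_eq_mul_div, div_mul_eq_mul_div, div_le_iff₀ (by positivity)]
    nlinarith
  -- positivity
  have hcont1 : ∀ᶠ u in 𝓝 (1 : ℝ), 1 / 2 < g u := by
    apply hg.continuousAt.eventually
    apply lt_mem_nhds
    rw [hg1]; norm_num
  obtain ⟨δ, hδ, hδg⟩ := Metric.eventually_nhds_iff.mp hcont1
  set η := min δ 1 with hη
  have hη0 : 0 < η := lt_min hδ one_pos
  let S : Set (Fin n → ℝ) := {x | x ⬝ᵥ x < 1 ∧ (1 - η / 2) * Real.sqrt (x ⬝ᵥ x) < x i0}
  have hcd : Continuous (fun x : Fin n → ℝ => x ⬝ᵥ x) := by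
    unfold dotProduct; fun_prop
  have hSo : IsOpen S := by
    apply IsOpen.inter
    · exact isOpen_lt hcd continuous_const
    · exact isOpen_lt (continuous_const.mul (Real.continuous_sqrt.comp hcd)) (continuous_apply i0)
  have hSne : S.Nonempty := by
    refine ⟨Pi.single i0 (1 / 2), ?_, ?_⟩
    · show Pi.single i0 (1 / 2 : ℝ) ⬝ᵥ Pi.single i0 (1 / 2) < 1
      rw [single_dotProduct, Pi.single_eq_same]; norm_num
    · show (1 - η / 2) * Real.sqrt (Pi.single i0 (1 / 2 : ℝ) ⬝ᵥ Pi.single i0 (1 / 2)) <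
        (Pi.single i0 (1 / 2 : ℝ) : Fin n → ℝ) i0
      rw [single_dotProduct, Pi.single_eq_same, Real.sqrt_mul_self (by norm_num)]
      nlinarith
  have hSpos : 0 < volume S := hSo.measure_pos volume hSne
  have hSb : S ⊆ ball n := fun x hx => hx.1
  have hSg : ∀ x ∈ S, 1 / 2 < g (hat x i0) := by
    intro x hx
    have hx2 : (1 - η / 2) * Real.sqrt (x ⬝ᵥ x) < x i0 := hx.2
    have hη1 : η ≤ 1 := min_le_right _ _
    have hpos : 0 < Real.sqrt (x ⬝ᵥ x) := by
      rcases (Real.sqrt_nonneg (x ⬝ᵥ x)).lt_or_eq with h | h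
      · exact h
      · exfalso
        rw [← h, mul_zero] at hx2
        have h0 : x ⬝ᵥ x = 0 := by
          have := Real.mul_self_sqrt (MomentM.dot_nonneg x)
          rw [← h, mul_zero] at this
          exact this.symm
        have := dotProduct_self_eq_zero.mp h0
        rw [this] at hx2
        simp at hx2
    have hhat : hat x i0 = (Real.sqrt (x ⬝ᵥ x))⁻¹ * x i0 := rfl
    have h1 : 1 - η / 2 < hat x i0 := by
      rw [hhat, inv_mul_eq_div, lt_div_iff₀ hpos]
      exact hx2
    have h2 : hat x i0 ≤ 1 := (MomentM.hat_mem x i0).2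
    apply hδg
    rw [Real.dist_eq, abs_sub_comm, abs_of_nonneg (by linarith)]
    have : η ≤ δ := min_le_left _ _
    linarith
  have hint : IntegrableOn (fun x => g (hat x i0) * g (hat x i0)) (ball n) :=
    integ1 i0 (fun u => g u * g u) (by fun_prop)
  have hge : (1 / 4 : ℝ) * (volume S).toReal ≤ ∫ x in ball n, g (hat x i0) * g (hat x i0) := by
    calc (1 / 4 : ℝ) * (volume S).toReal = ∫ x in S, (1 / 4 : ℝ) := by
          rw [setIntegral_const, smul_eq_mul, mul_comm]; rfl
      _ ≤ ∫ x in S, g (hat x i0) * g (hat x i0) := by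
          apply setIntegral_mono_on _ (hint.mono_set hSb) hSo.measurableSet
          · intro x hx
            nlinarith [hSg x hx]
          · exact integrableOn_const (lt_of_le_of_lt (measure_mono hSb) MomentM.volume_ball_lt).ne
      _ ≤ ∫ x in ball n, g (hat x i0) * g (hat x i0) :=
          setIntegral_mono_set hint (Eventually.of_forall fun x => mul_self_nonneg _)
            (HasSubset.Subset.eventuallyLE hSb)
  rw [hsq] at hge
  have : 0 < (volume S).toReal :=
    ENNReal.toReal_pos hSpos.ne' (lt_of_le_of_lt (measure_mono hSb) MomentM.volume_ball_lt).ne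
  linarith

end FinM

open FinM in
theorem Fin_proof (hMom : Stmt_Moment) : Stmt_Fin := by
  intro n i0 i1 f h01 hn hf1 hfc hprod
  -- continuous extension of f
  set g : ℝ → ℝ := Set.IccExtend (by norm_num : (-1 : ℝ) ≤ 1) (Set.restrict (Set.Icc (-1) 1) f)
    with hg
  have hgc : Continuous g := (continuousOn_iff_continuous_restrict.mp hfc).Icc_extend'
  have hgf : ∀ t ∈ Set.Icc (-1 : ℝ) 1, g t = f t := by
    intro t ht
    rw [hg, Set.IccExtend_of_mem _ _ ht]; rfl
  have hgh : ∀ x : Fin n → ℝ, f (hat x i0) = g (hat x i0) := fun x =>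
    (hgf _ (MomentM.hat_mem x i0)).symm
  simp only [hgh] at hprod
  have hex := exists_ne (n := n) i0 g hgc (by rw [hgf 1 (by norm_num), hf1])
  classical
  set k := Nat.find hex with hk
  have hkne : ∫ x in ball n, (hat x i0) ^ k * g (hat x i0) ≠ 0 := Nat.find_spec hex
  have hkmin : ∀ m < k, ∫ x in ball n, (hat x i0) ^ m * g (hat x i0) = 0 := fun m hm =>
    not_not.mp (Nat.find_min hex hm)
  set c := ∫ x in ball n, (hat x i0) ^ k * g (hat x i0) with hc
  refine ⟨k, fun t ht => ?_⟩
  set s := Real.sqrt (1 - t ^ 2) with hs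
  have hs2 : s ^ 2 = 1 - t ^ 2 := Real.sq_sqrt (by nlinarith [ht.1, ht.2])
  have h1 := hprod k t ht
  rw [← hc] at h1
  -- expansion
  have h2 : ∫ x in ball n, (t * hat x i0 + s * hat x i1) ^ k * g (hat x i0) =
      ∑ i ∈ Finset.range (k + 1), (s ^ i * t ^ (k - i) * (k.choose i)) *
        ∫ x in ball n, ((hat x i0) ^ (k - i) * g (hat x i0)) * (hat x i1) ^ i := by
    have h3 : (fun x : Fin n → ℝ => (t * hat x i0 + s * hat x i1) ^ k * g (hat x i0)) =
        fun x => ∑ i ∈ Finset.range (k + 1), (s ^ i * t ^ (k - i) * (k.choose i)) *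
          (((hat x i0) ^ (k - i) * g (hat x i0)) * (hat x i1) ^ i) := by
      ext x
      rw [add_comm, add_pow, Finset.sum_mul]
      apply Finset.sum_congr rfl
      intro i _
      rw [mul_pow, mul_pow]
      ring
    rw [h3, integral_finset_sum]
    · apply Finset.sum_congr rfl
      intro i _
      rw [integral_const_mul]
    · intro i _
      apply Integrable.const_mul
      exact integ i0 i1 (fun u v => (u ^ (k - i) * g u) * v ^ i) (by fun_prop)
  have h4 : ∀ i, i ≤ k → Odd i →
      ∫ x in ball n, ((hat x i0) ^ (k - i) * g (hat x i0)) * (hat x i1) ^ i = 0 := by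
    intro i _ hi
    obtain ⟨j, rfl⟩ := hi
    exact (hMom n i0 i1 h01 hn (fun u => u ^ (k - (2 * j + 1)) * g u) (by fun_prop)).2 j
  have h5 : ∀ j, 2 * j ≤ k →
      ∫ x in ball n, ((hat x i0) ^ (k - 2 * j) * g (hat x i0)) * (hat x i1) ^ (2 * j) =
        kap n j * ((-1) ^ j * c) := by
    intro j hj
    rw [(hMom n i0 i1 h01 hn (fun u => u ^ (k - 2 * j) * g u) (by fun_prop)).1 j,
      (Kind i0 g hgc k hkmin j (k - 2 * j)).2 (by omega)]
  have h6 : c * f t = (Gk n k t) * c := by
    rw [h1, h2]
    have h7 := sum_even (fun i => if i ≤ k then (s ^ i * t ^ (k - i) * (k.choose i)) *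
        ∫ x in ball n, ((hat x i0) ^ (k - i) * g (hat x i0)) * (hat x i1) ^ i else 0) (by
      intro i hi
      split_ifs with hik
      · rw [h4 i hik hi, mul_zero]
      · rfl) k
    have h8 : ∑ i ∈ Finset.range (k + 1), (s ^ i * t ^ (k - i) * (k.choose i)) *
        ∫ x in ball n, ((hat x i0) ^ (k - i) * g (hat x i0)) * (hat x i1) ^ i =
        ∑ i ∈ Finset.range (k + 1), (fun i => if i ≤ k then (s ^ i * t ^ (k - i) * (k.choose i)) *
        ∫ x in ball n, ((hat x i0) ^ (k - i) * g (hat x i0)) * (hat x i1) ^ i else 0) i := by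
      apply Finset.sum_congr rfl
      intro i hi
      have : i ≤ k := by simpa [Nat.lt_succ_iff] using hi
      simp only [this, if_true]
    rw [h8, h7, Gk, Finset.sum_mul]
    apply Finset.sum_congr rfl
    intro j hj
    have hj' : 2 * j ≤ k := by
      have := Finset.mem_range.mp hj
      omega
    simp only [hj', if_true]
    rw [h5 j hj', pow_mul, hs2]
    ring
  have h9 : f t = Gk n k t := by
    have : c * f t = c * Gk n k t := by rw [h6]; ring
    exact mul_left_cancel₀ hkne this
  exact h9

end Pool.Agent.ClassOne
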