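import Pool.Agent.ClassOne.Defs

/-!
# MP_91ad52_an: `Gk` is the normalised Gegenbauer polynomial (module M11)
-/

open Finset

namespace Pool.Agent.ClassOne

namespace GegenAux

lemma kap_succ (n j : ℕ) :
    kap n (j + 1) = kap n j * ((2 * j + 1 : ℝ) / ((n : ℝ) - 1 + 2 * j)) := by
  unfold kap
  rw [prod_range_succ]

/-- coefficient -/
noncomputable def a (n k j : ℕ) : ℝ := (-1 : ℝ) ^ j * (k.choose (2 * j)) * kap n j

/-- basis -/
noncomputable def T (k j : ℕ) (t : ℝ) : ℝ := t ^ (k - 2 * j) * (1 - t ^ 2) ^ j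

lemma a_zero_of_lt {n k j : ℕ} (h : k < 2 * j) : a n k j = 0 := by
  unfold a
  rw [Nat.choose_eq_zero_of_lt h]; simp

lemma Gk_eq (n k N : ℕ) (t : ℝ) (hN : k / 2 + 1 ≤ N) :
    Gk n k t = ∑ j ∈ range N, a n k j * T k j t := by
  unfold Gk
  have h1 : ∀ j ∈ range (k / 2 + 1),
      (-1 : ℝ) ^ j * (k.choose (2 * j)) * kap n j * t ^ (k - 2 * j) * (1 - t ^ 2) ^ j =
        a n k j * T k j t := by
    intro j _
    unfold a T
    ring
  rw [sum_congr rfl h1]
  refine sum_subset (fun x hx => ?_) (fun x _ hx => ?_)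
  · rw [mem_range] at hx ⊢; omega
  · rw [mem_range] at hx
    rw [a_zero_of_lt (by omega), zero_mul]

lemma t_mul_Gk (n k N : ℕ) (t : ℝ) (hN : (k + 1) / 2 + 1 ≤ N) :
    t * Gk n (k + 1) t = ∑ j ∈ range N, a n (k + 1) j * T (k + 2) j t := by
  rw [Gk_eq n (k + 1) N t hN, mul_sum]
  refine sum_congr rfl (fun j _ => ?_)
  by_cases h : k + 1 < 2 * j
  · rw [a_zero_of_lt h]; simp
  · have h2 : k + 2 - 2 * j = (k + 1 - 2 * j) + 1 := by omega
    unfold T
    rw [h2, pow_succ]
    ring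

lemma Gk_eq' (n k N : ℕ) (t : ℝ) (hN : k / 2 + 1 ≤ N) :
    Gk n k t = ∑ j ∈ range N, a n k j * (T (k + 2) j t + T (k + 2) (j + 1) t) := by
  rw [Gk_eq n k N t hN]
  refine sum_congr rfl (fun j _ => ?_)
  by_cases h : k < 2 * j
  · rw [a_zero_of_lt h]; simp
  · have h2 : k + 2 - 2 * j = (k - 2 * j) + 2 := by omega
    have h3 : k + 2 - 2 * (j + 1) = k - 2 * j := by omega
    unfold T
    rw [h2, h3, pow_succ (1 - t ^ 2) j, pow_add]
    ring

lemma coeff_zero (n k : ℕ) :
    ((k : ℝ) + n - 1) * a n (k + 2) 0 = (2 * k + n) * a n (k + 1) 0 - (k + 1) * a n k 0 := by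
  unfold a
  simp
  ring

lemma coeff_succ (n k j : ℕ) (hn : 3 ≤ n) :
    ((k : ℝ) + n - 1) * a n (k + 2) (j + 1) =
      (2 * k + n) * a n (k + 1) (j + 1) - (k + 1) * (a n k (j + 1) + a n k j) := by
  have hne : ((n : ℝ) - 1 + 2 * j) ≠ 0 := by
    have : (3 : ℝ) ≤ n := by exact_mod_cast hn
    have hj : (0 : ℝ) ≤ j := Nat.cast_nonneg j
    have hpos : (0 : ℝ) < (n : ℝ) - 1 + 2 * j := by linarith
    exact hpos.ne'
  have e1 : ((k + 2).choose (2 * (j + 1)) : ℝ) =
      (k.choose (2 * j) : ℝ) + 2 * (k.choose (2 * j + 1)) + (k.choose (2 * j + 2)) := by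
    have : (k + 2).choose (2 * j + 2) =
      (k.choose (2 * j)) + 2 * (k.choose (2 * j + 1)) + (k.choose (2 * j + 2)) := by
      rw [Nat.choose_succ_succ' (k + 1) (2 * j + 1), Nat.choose_succ_succ' k (2 * j),
        Nat.choose_succ_succ' k (2 * j + 1)]
      ring
    rw [show 2 * (j + 1) = 2 * j + 2 by ring, this]
    push_cast
    ring
  have e2 : ((k + 1).choose (2 * (j + 1)) : ℝ) =
      (k.choose (2 * j + 1) : ℝ) + (k.choose (2 * j + 2)) := by
    rw [show 2 * (j + 1) = 2 * j + 2 by ring, Nat.choose_succ_succ' k (2 * j + 1)]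
    push_cast
    ring
  have e3 : (k.choose (2 * j + 1) : ℝ) * (2 * j + 1) = k.choose (2 * j) * ((k : ℝ) - 2 * j) := by
    by_cases h : 2 * j ≤ k
    · have := Nat.choose_succ_right_eq k (2 * j)
      have h2 : ((k - 2 * j : ℕ) : ℝ) = (k : ℝ) - 2 * j := by
        rw [Nat.cast_sub h]; push_cast; ring
      rw [← h2]
      exact_mod_cast this
    · rw [Nat.choose_eq_zero_of_lt (by omega : k < 2 * j),
        Nat.choose_eq_zero_of_lt (by omega : k < 2 * j + 1)]
      simp
  unfold a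
  rw [e1, e2, kap_succ, show 2 * (j + 1) = 2 * j + 2 by ring, pow_succ]
  generalize (k.choose (2 * j) : ℝ) = A at *
  generalize (k.choose (2 * j + 1) : ℝ) = B at *
  generalize (k.choose (2 * j + 2) : ℝ) = D at *
  generalize kap n j = K at *
  generalize (-1 : ℝ) ^ j = s at *
  field_simp
  linear_combination (-s * K) * (2 * ((k : ℝ) + n - 1) - (2 * k + n)) * e3

lemma Gk_rec (n k : ℕ) (t : ℝ) (hn : 3 ≤ n) :
    ((k : ℝ) + n - 1) * Gk n (k + 2) t =
      (2 * k + n) * (t * Gk n (k + 1) t) - (k + 1) * Gk n k t := by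
  have hG : Gk n k t = (∑ j ∈ range (k + 3), a n k j * T (k + 2) j t) +
      ∑ j ∈ range (k + 2), a n k j * T (k + 2) (j + 1) t := by
    rw [Gk_eq' n k (k + 2) t (by omega)]
    rw [sum_range_succ (fun j => a n k j * T (k + 2) j t) (k + 2), a_zero_of_lt (by omega),
      zero_mul, add_zero, ← sum_add_distrib]
    refine sum_congr rfl (fun j _ => by ring)
  rw [Gk_eq n (k + 2) (k + 3) t (by omega), t_mul_Gk n k (k + 3) t (by omega), hG]
  rw [sum_range_succ' _ (k + 2), sum_range_succ' _ (k + 2), sum_range_succ' _ (k + 2)]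
  have h : ((k : ℝ) + n - 1) * (∑ j ∈ range (k + 2), a n (k + 2) (j + 1) * T (k + 2) (j + 1) t)
      = (2 * k + n) * (∑ j ∈ range (k + 2), a n (k + 1) (j + 1) * T (k + 2) (j + 1) t)
        - (k + 1) * ((∑ j ∈ range (k + 2), a n k (j + 1) * T (k + 2) (j + 1) t)
          + ∑ j ∈ range (k + 2), a n k j * T (k + 2) (j + 1) t) := by
    rw [mul_sum, mul_sum, ← sum_add_distrib, mul_sum, ← sum_sub_distrib]
    refine sum_congr rfl (fun j _ => ?_)
    have := coeff_succ n k j hn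
    linear_combination (T (k + 2) (j + 1) t) * this
  have h0 := coeff_zero n k
  linear_combination h + (T (k + 2) 0 t) * h0

/-- normalising factor -/
noncomputable def d (n k : ℕ) : ℝ := ∏ i ∈ range k, ((n : ℝ) - 2 + i) / (i + 1)

lemma d_succ (n k : ℕ) : d n (k + 1) = d n k * (((n : ℝ) - 2 + k) / (k + 1)) := by
  unfold d
  rw [prod_range_succ]

lemma d_pos (n k : ℕ) (hn : 3 ≤ n) : 0 < d n k := by
  unfold d
  refine prod_pos (fun i _ => ?_)
  have : (3 : ℝ) ≤ n := by exact_mod_cast hn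
  have hi : (0 : ℝ) ≤ i := Nat.cast_nonneg i
  exact div_pos (by linarith) (by linarith)

lemma gegen_eq (n : ℕ) (t : ℝ) (hn : 3 ≤ n) : ∀ k : ℕ,
    gegen (((n : ℝ) - 2) / 2) t k = d n k * Gk n k t
  | 0 => by simp [gegen, d, Gk, kap]
  | 1 => by
      rw [gegen, d_succ, Gk]
      simp only [d, kap, range_zero, prod_empty, Nat.reduceDiv, zero_add, range_one,
        sum_singleton, mul_zero, Nat.choose_zero_right, Nat.cast_one, pow_zero, mul_one,
        Nat.sub_zero, pow_one, one_mul]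
      push_cast
      ring
  | (k + 2) => by
      have h1 := gegen_eq n t hn (k + 1)
      have h0 := gegen_eq n t hn k
      have hrec := Gk_rec n k t hn
      rw [gegen, h1, h0, d_succ n (k + 1), d_succ n k]
      have hk1 : ((k : ℝ) + 1) ≠ 0 := by positivity
      have hk2 : ((k : ℝ) + 2) ≠ 0 := by positivity
      have hk3 : ((k : ℝ) + 1 + 1) ≠ 0 := by positivity
      push_cast
      rw [div_eq_iff hk2]
      have e : (k : ℝ) + 1 + 1 = k + 2 := by ring
      rw [e]
      field_simp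
      linear_combination (-(d n k) * ((n : ℝ) - 2 + k)) * hrec

lemma Gk_one (n k : ℕ) : Gk n k 1 = 1 := by
  rw [Gk_eq n k (k / 2 + 1) 1 le_rfl, sum_range_succ']
  have : ∀ j ∈ range (k / 2), a n k (j + 1) * T k (j + 1) 1 = 0 := by
    intro j _
    unfold T
    simp
  rw [sum_congr rfl this]
  simp [a, T, kap]

end GegenAux

open GegenAux in
/-- module M11 -/
theorem Gegen_proof : Stmt_Gegen := by
  intro n k t hn
  have h1 := gegen_eq n 1 hn k
  rw [Gk_one, mul_one] at h1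
  have hd := (d_pos n k hn).ne'
  refine ⟨by rw [h1]; exact hd, ?_⟩
  rw [h1, gegen_eq n t hn k]
  field_simp

end Pool.Agent.ClassOne
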