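import Pool.Agent.ClassOne.Defs

/-!
# Orthogonal matrices preserve integrals over the ball of functions of `hat x`
-/

open Matrix MeasureTheory Filter Topology
open scoped InnerProductSpace

namespace Pool.Agent.ClassOne

lemma transpose_mul_self_of {n : ℕ} {A : Matrix (Fin n) (Fin n) ℝ} (h : A * Aᵀ = 1) : Aᵀ * A = 1 :=
  mul_eq_one_comm.1 h

lemma dot_mulVec_mulVec {n : ℕ} {A : Matrix (Fin n) (Fin n) ℝ} (h : A * Aᵀ = 1)
    (x y : Fin n → ℝ) : (A *ᵥ x) ⬝ᵥ (A *ᵥ y) = x ⬝ᵥ y := by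
  rw [dotProduct_mulVec, vecMul_mulVec, transpose_mul_self_of h, vecMul_one]

lemma hat_mulVec {n : ℕ} {A : Matrix (Fin n) (Fin n) ℝ} (h : A * Aᵀ = 1) (x : Fin n → ℝ) :
    hat (A *ᵥ x) = A *ᵥ hat x := by
  unfold hat
  rw [dot_mulVec_mulVec h, mulVec_smul]

/-- An orthogonal matrix as a measurable equivalence. -/
noncomputable def orthEquiv {n : ℕ} (A : Matrix (Fin n) (Fin n) ℝ) (h : A * Aᵀ = 1) :
    (Fin n → ℝ) ≃ᵐ (Fin n → ℝ) where
  toFun x := A *ᵥ x
  invFun x := Aᵀ *ᵥ x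
  left_inv x := by
    change Aᵀ *ᵥ (A *ᵥ x) = x
    rw [mulVec_mulVec, transpose_mul_self_of h, one_mulVec]
  right_inv x := by
    change A *ᵥ (Aᵀ *ᵥ x) = x
    rw [mulVec_mulVec, h, one_mulVec]
  measurable_toFun := (continuous_const.matrix_mulVec continuous_id).measurable
  measurable_invFun := (continuous_const.matrix_mulVec continuous_id).measurable

lemma measurePreserving_orth {n : ℕ} {A : Matrix (Fin n) (Fin n) ℝ} (h : A * Aᵀ = 1) :
    MeasurePreserving (orthEquiv A h) volume volume := by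
  refine ⟨(orthEquiv A h).measurable, ?_⟩
  have hdet : A.det * A.det = 1 := by
    have := congrArg Matrix.det h
    rwa [det_mul, det_transpose, det_one] at this
  have hne : A.det ≠ 0 := by
    intro h0
    rw [h0] at hdet
    norm_num at hdet
  have habs : |(A.det)⁻¹| = 1 := by
    rcases mul_self_eq_one_iff.1 hdet with h1 | h1 <;> rw [h1] <;> norm_num
  have h2 := Real.map_matrix_volume_pi_eq_smul_volume_pi hne
  rw [habs, ENNReal.ofReal_one, one_smul] at h2
  exact h2

theorem Inv_proof.{u} : Stmt_Inv.{u} := by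
  intro n H _ _ F A hA
  have h1 := (measurePreserving_orth hA).setIntegral_preimage_emb
    (orthEquiv A hA).measurableEmbedding (fun x => F (hat x)) (ball n)
  have h2 : (orthEquiv A hA) ⁻¹' ball n = ball n := by
    ext x
    change (A *ᵥ x) ⬝ᵥ (A *ᵥ x) < 1 ↔ x ⬝ᵥ x < 1
    rw [dot_mulVec_mulVec hA]
  rw [h2] at h1
  exact h1

end Pool.Agent.ClassOne
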