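import Pool.Agent.ClassOne.Defs

/-!
# MP_91ad52_an: existence of the limit of `f` at `1` from the left, `n ≥ 4` (module M3)
-/

open Matrix MeasureTheory Filter Topology
open scoped InnerProductSpace

namespace Pool.Agent.ClassOne

/-- vector with the first four coordinates `a b c d` -/
def vec4 (n : ℕ) (a b c d : ℝ) : Fin n → ℝ := fun j =>
  if j.1 = 0 then a else if j.1 = 1 then b else if j.1 = 2 then c else if j.1 = 3 then d else 0

lemma vec4_zero (m : ℕ) (a b c d : ℝ) : vec4 (m + 4) a b c d 0 = a := rfl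
lemma vec4_one (m : ℕ) (a b c d : ℝ) : vec4 (m + 4) a b c d (Fin.succ 0) = b := rfl
lemma vec4_two (m : ℕ) (a b c d : ℝ) : vec4 (m + 4) a b c d (Fin.succ (Fin.succ 0)) = c := rfl
lemma vec4_three (m : ℕ) (a b c d : ℝ) :
    vec4 (m + 4) a b c d (Fin.succ (Fin.succ (Fin.succ 0))) = d := rfl

lemma vec4_dot {n : ℕ} (hn : 4 ≤ n) (a b c d a' b' c' d' : ℝ) :
    vec4 n a b c d ⬝ᵥ vec4 n a' b' c' d' = a * a' + b * b' + c * c' + d * d' := by
  obtain ⟨m, rfl⟩ : ∃ m, n = m + 4 := ⟨n - 4, by omega⟩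
  simp only [dotProduct, Fin.sum_univ_succ]
  have h : ∀ i : Fin m, vec4 (m + 4) a b c d i.succ.succ.succ.succ = 0 := by
    intro i
    simp [vec4, Fin.val_succ]
  simp only [h, zero_mul, Finset.sum_const_zero, vec4_zero, vec4_one, vec4_two, vec4_three]
  ring

section

variable {n : ℕ} {H : Type*} [NormedAddCommGroup H] [InnerProductSpace ℂ H]
  {V : (Fin n → ℝ) → H} {f : ℝ → ℝ}

/-- Cauchy–Schwarz for the kernel -/
lemma kernel_cs (h1 : f 1 = 1)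
    (hV : ∀ x y : Fin n → ℝ, x ⬝ᵥ x = 1 → y ⬝ᵥ y = 1 →
      inner ℂ (V x) (V y) = ((f (x ⬝ᵥ y) : ℝ) : ℂ))
    {ι : Type*} (s : Finset ι) (a : ι → ℝ) (p : ι → Fin n → ℝ) (hp : ∀ i, p i ⬝ᵥ p i = 1)
    (x : Fin n → ℝ) (hx : x ⬝ᵥ x = 1) :
    (∑ i ∈ s, a i * f (x ⬝ᵥ p i)) ^ 2 ≤ ∑ i ∈ s, ∑ j ∈ s, a i * a j * f (p i ⬝ᵥ p j) := by
  set w : H := ∑ i ∈ s, ((a i : ℝ) : ℂ) • V (p i) with hw
  have e1 : inner ℂ (V x) w = ((∑ i ∈ s, a i * f (x ⬝ᵥ p i) : ℝ) : ℂ) := by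
    rw [hw, inner_sum, Complex.ofReal_sum]
    refine Finset.sum_congr rfl fun i _ => ?_
    rw [inner_smul_right, hV x (p i) hx (hp i)]
    push_cast; ring
  have e2 : inner ℂ w w = ((∑ i ∈ s, ∑ j ∈ s, a i * a j * f (p i ⬝ᵥ p j) : ℝ) : ℂ) := by
    rw [hw, sum_inner, Complex.ofReal_sum]
    refine Finset.sum_congr rfl fun i _ => ?_
    rw [inner_sum, Complex.ofReal_sum]
    refine Finset.sum_congr rfl fun j _ => ?_
    rw [inner_smul_left, inner_smul_right, hV (p i) (p j) (hp i) (hp j), Complex.conj_ofReal]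
    push_cast; ring
  have e3 : ‖V x‖ = 1 := by
    have := inner_self_eq_norm_sq (𝕜 := ℂ) (V x)
    rw [hV x x hx hx, hx, h1] at this
    have h2 : ‖V x‖ ^ 2 = 1 := by simpa using this.symm
    nlinarith [norm_nonneg (V x)]
  have e4 : ‖w‖ ^ 2 = ∑ i ∈ s, ∑ j ∈ s, a i * a j * f (p i ⬝ᵥ p j) := by
    have := inner_self_eq_norm_sq (𝕜 := ℂ) w
    rw [e2] at this
    simpa using this.symm
  have e5 := norm_inner_le_norm (𝕜 := ℂ) (V x) w
  rw [e1, e3, one_mul, Complex.norm_real, Real.norm_eq_abs] at e5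
  rw [← e4, ← sq_abs]
  exact pow_le_pow_left₀ (abs_nonneg _) e5 2

end

/-- strictly increasing choice -/
lemma pick_seq (P : ℝ → Prop) (h : ∀ l < (1 : ℝ), ∃ t, l < t ∧ t < 1 ∧ P t) (l : ℝ)
    (hl : l < 1) : ∃ t : ℕ → ℝ, StrictMono t ∧ ∀ i, l < t i ∧ t i < 1 ∧ P (t i) := by
  have h' : ∀ l : {l : ℝ // l < 1}, ∃ t : {t : ℝ // t < 1}, l.1 < t.1 ∧ P t.1 := by
    rintro ⟨l, hl⟩
    obtain ⟨t, h1, h2, h3⟩ := h l hl
    exact ⟨⟨t, h2⟩, h1, h3⟩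
  choose g hg using h'
  let u : ℕ → {t : ℝ // t < 1} := fun k => Nat.rec (g ⟨l, hl⟩) (fun _ x => g x) k
  have hu0 : u 0 = g ⟨l, hl⟩ := rfl
  have hus : ∀ k, u (k + 1) = g (u k) := fun k => rfl
  have hmono : StrictMono fun k => (u k).1 := by
    refine strictMono_nat_of_lt_succ fun k => ?_
    show (u k).1 < (u (k + 1)).1
    rw [hus]
    exact (hg (u k)).1
  refine ⟨fun k => (u k).1, hmono, fun i => ⟨?_, (u i).2, ?_⟩⟩
  · have h0 : l < (u 0).1 := (hg ⟨l, hl⟩).1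
    exact lt_of_lt_of_le h0 (hmono.monotone (Nat.zero_le i))
  · cases i with
    | zero => show P (u 0).1; rw [hu0]; exact (hg _).2
    | succ k => show P (u (k + 1)).1; rw [hus]; exact (hg _).2

lemma two_dot_lt {p p' q q' : ℝ} (hp : p ^ 2 + p' ^ 2 = 1) (hq : q ^ 2 + q' ^ 2 = 1)
    (hne : p ≠ q) : p * q + p' * q' < 1 := by
  have : 0 < (p - q) ^ 2 := by
    have : p - q ≠ 0 := sub_ne_zero.2 hne
    positivity
  nlinarith [sq_nonneg (p' - q')]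

lemma two_dot_gt_aux {l p q : ℝ} (hp0 : 0 ≤ p) (hpq : p ≤ q) (hq1 : q ≤ 1) (hl : l < p) :
    l < p * q + Real.sqrt (1 - p ^ 2) * Real.sqrt (1 - q ^ 2) := by
  have hq2 : 0 ≤ 1 - q ^ 2 := by nlinarith
  have h1 : Real.sqrt (1 - q ^ 2) ≤ Real.sqrt (1 - p ^ 2) :=
    Real.sqrt_le_sqrt (by nlinarith)
  have h2 : 1 - q ^ 2 ≤ Real.sqrt (1 - p ^ 2) * Real.sqrt (1 - q ^ 2) := by
    calc 1 - q ^ 2 = Real.sqrt (1 - q ^ 2) * Real.sqrt (1 - q ^ 2) := (Real.mul_self_sqrt hq2).symm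
      _ ≤ Real.sqrt (1 - p ^ 2) * Real.sqrt (1 - q ^ 2) :=
        mul_le_mul_of_nonneg_right h1 (Real.sqrt_nonneg _)
  nlinarith

lemma two_dot_gt {l p q : ℝ} (hp0 : 0 ≤ p) (hq0 : 0 ≤ q) (hp1 : p ≤ 1) (hq1 : q ≤ 1)
    (hlp : l < p) (hlq : l < q) :
    l < p * q + Real.sqrt (1 - p ^ 2) * Real.sqrt (1 - q ^ 2) := by
  rcases le_total p q with h | h
  · exact two_dot_gt_aux hp0 h hq1 hlp
  · have := two_dot_gt_aux hq0 h hp1 hlq
    rw [mul_comm p q, mul_comm (Real.sqrt (1 - p ^ 2))]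
    exact this

section

variable {n : ℕ} {H : Type*} [NormedAddCommGroup H] [InnerProductSpace ℂ H]
  {V : (Fin n → ℝ) → H} {f : ℝ → ℝ}

lemma sum_ite_two (N : ℕ) (B : ℝ) :
    ∑ k : Fin N, ∑ l : Fin N, (B + if k = l then (2 : ℝ) else 0) = (N : ℝ) ^ 2 * B + 2 * N := by
  simp only [Finset.sum_add_distrib, Finset.sum_ite_eq, Finset.mem_univ, if_true,
    Finset.sum_const, Finset.card_univ, Fintype.card_fin, nsmul_eq_mul]
  ring

/-- the finite configuration argument -/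
lemma key_ineq (hn : 4 ≤ n) (h1 : f 1 = 1)
    (hV : ∀ x y : Fin n → ℝ, x ⬝ᵥ x = 1 → y ⬝ᵥ y = 1 →
      inner ℂ (V x) (V y) = ((f (x ⬝ᵥ y) : ℝ) : ℂ))
    (A κ ε : ℝ) (hA : -1 ≤ A) (hε : 0 < ε) (hκ : ε < κ) (l0 : ℝ) (hl0 : l0 < 1) (hl00 : 0 ≤ l0)
    (hub : ∀ t, l0 < t → t < 1 → f t ≤ A + ε)
    (hgood : ∀ l < (1 : ℝ), ∃ t, l < t ∧ t < 1 ∧ A - ε ≤ f t)
    (hbad : ∀ l < (1 : ℝ), ∃ t, l < t ∧ t < 1 ∧ f t ≤ A - κ) (N : ℕ) :
    (κ - ε) ^ 2 * (N : ℝ) ^ 2 ≤ 4 * ε * (N : ℝ) ^ 2 + 4 * N := by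
  obtain ⟨t, htm, ht⟩ := pick_seq _ hgood l0 hl0
  -- m = t N
  set m := t N with hm
  have hm1 : m < 1 := (ht N).2.1
  have hml : l0 < m := (ht N).1
  obtain ⟨b, hbm, hb⟩ := pick_seq _ hbad m hm1
  set c := Real.sqrt ((1 + m) / 2) with hc
  have hc2 : c ^ 2 = (1 + m) / 2 := Real.sq_sqrt (by linarith)
  have hc0 : 0 < c := Real.sqrt_pos.2 (by linarith)
  have hc1 : c < 1 := by nlinarith
  have hcm : m < c := by
    have : m ^ 2 < c ^ 2 := by rw [hc2]; nlinarith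
    exact lt_of_pow_lt_pow_left₀ 2 hc0.le this
  set s2 := 1 - c ^ 2 with hs2
  have hs2pos : 0 < s2 := by rw [hs2, hc2]; linarith
  have hs2c : c ^ 2 - s2 = m := by rw [hs2, hc2]; ring
  set s := Real.sqrt s2 with hs
  have hss : s * s = s2 := Real.mul_self_sqrt hs2pos.le
  -- the points
  let C : ℕ → ℝ := fun k => (b k - c ^ 2) / s2
  have hC1 : ∀ k, C k < 1 := by
    intro k
    show (b k - c ^ 2) / s2 < 1
    rw [div_lt_one hs2pos]
    have := (hb k).2.1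
    linarith
  have hC2 : ∀ k, -1 < C k := by
    intro k
    show -1 < (b k - c ^ 2) / s2
    rw [lt_div_iff₀ hs2pos]
    have := (hb k).1
    linarith
  have hCb : ∀ k, c ^ 2 + s2 * C k = b k := by
    intro k
    show c ^ 2 + s2 * ((b k - c ^ 2) / s2) = b k
    field_simp
    ring
  let S : ℕ → ℝ := fun k => Real.sqrt (1 - C k ^ 2)
  have hS : ∀ k, C k ^ 2 + S k ^ 2 = 1 := by
    intro k
    have : 0 ≤ 1 - C k ^ 2 := by nlinarith [hC1 k, hC2 k]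
    show C k ^ 2 + Real.sqrt (1 - C k ^ 2) ^ 2 = 1
    rw [Real.sq_sqrt this]; ring
  let p : ℕ → ℝ := fun i => t i / c
  have hp0 : ∀ i, 0 ≤ p i := fun i => div_nonneg (by linarith [(ht i).1]) hc0.le
  have hpl : ∀ i, l0 < p i := by
    intro i
    show l0 < t i / c
    rw [lt_div_iff₀ hc0]
    nlinarith [(ht i).1]
  have hp1 : ∀ i, i < N → p i < 1 := by
    intro i hi
    show t i / c < 1
    rw [div_lt_one hc0]
    exact lt_trans (htm hi) hcm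
  let x : ℕ → Fin n → ℝ := fun k => vec4 n c 0 (s * C k) (s * S k)
  let y : ℕ → Fin n → ℝ := fun i => vec4 n (p i) (Real.sqrt (1 - p i ^ 2)) 0 0
  let x0 : Fin n → ℝ := vec4 n c 0 s 0
  have hx0 : x0 ⬝ᵥ x0 = 1 := by
    show vec4 n c 0 s 0 ⬝ᵥ vec4 n c 0 s 0 = 1
    rw [vec4_dot hn]
    nlinarith
  have hxx : ∀ k l, x k ⬝ᵥ x l = c ^ 2 + s2 * (C k * C l + S k * S l) := by
    intro k l
    show vec4 n c 0 (s * C k) (s * S k) ⬝ᵥ vec4 n c 0 (s * C l) (s * S l) = _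
    rw [vec4_dot hn, ← hss]; ring
  have hx1 : ∀ k, x k ⬝ᵥ x k = 1 := by
    intro k
    rw [hxx]
    have := hS k
    have h2 : C k * C k + S k * S k = 1 := by nlinarith
    rw [h2, hs2]; ring
  have hx0k : ∀ k, x0 ⬝ᵥ x k = b k := by
    intro k
    show vec4 n c 0 s 0 ⬝ᵥ vec4 n c 0 (s * C k) (s * S k) = _
    rw [vec4_dot hn, ← hCb k, ← hss]; ring
  have hyy : ∀ i j, y i ⬝ᵥ y j =
      p i * p j + Real.sqrt (1 - p i ^ 2) * Real.sqrt (1 - p j ^ 2) := by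
    intro i j
    show vec4 n (p i) (Real.sqrt (1 - p i ^ 2)) 0 0 ⬝ᵥ
      vec4 n (p j) (Real.sqrt (1 - p j ^ 2)) 0 0 = _
    rw [vec4_dot hn]; ring
  have hsq : ∀ i, i < N → p i ^ 2 + Real.sqrt (1 - p i ^ 2) ^ 2 = 1 := by
    intro i hi
    rw [Real.sq_sqrt (by nlinarith [hp0 i, hp1 i hi])]; ring
  have hy1 : ∀ i, i < N → y i ⬝ᵥ y i = 1 := by
    intro i hi
    rw [hyy]
    nlinarith [hsq i hi]
  have hcp : ∀ i, c * p i = t i := by
    intro i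
    show c * (t i / c) = t i
    field_simp
  have hxy : ∀ k i, x k ⬝ᵥ y i = t i := by
    intro k i
    show vec4 n c 0 (s * C k) (s * S k) ⬝ᵥ vec4 n (p i) (Real.sqrt (1 - p i ^ 2)) 0 0 = _
    rw [vec4_dot hn, ← hcp i]; ring
  have hx0y : ∀ i, x0 ⬝ᵥ y i = t i := by
    intro i
    show vec4 n c 0 s 0 ⬝ᵥ vec4 n (p i) (Real.sqrt (1 - p i ^ 2)) 0 0 = _
    rw [vec4_dot hn, ← hcp i]; ring
  have hbinj : ∀ k l, k ≠ l → C k ≠ C l := by
    intro k l hkl h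
    have h2 : b k = b l := by rw [← hCb k, ← hCb l, h]
    exact hkl (hbm.injective h2)
  have hpinj : ∀ i j, i ≠ j → p i ≠ p j := by
    intro i j hij h
    have h2 : t i = t j := by rw [← hcp i, ← hcp j, h]
    exact hij (htm.injective h2)
  -- bounds on the kernel
  have bxx : ∀ k l : Fin N, f (x k ⬝ᵥ x l) ≤ (A + ε) + if k = l then (2 : ℝ) else 0 := by
    intro k l
    by_cases hkl : k = l
    · rw [if_pos hkl, hkl, hx1, h1]; linarith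
    · rw [if_neg hkl, add_zero]
      have hkl' : (k : ℕ) ≠ l := fun h => hkl (Fin.ext h)
      have h3 := two_dot_lt (hS k) (hS l) (hbinj _ _ hkl')
      have h4 : -1 ≤ C k * C l + S k * S l := by
        nlinarith [sq_nonneg (C k + C l), sq_nonneg (S k + S l), hS k, hS l]
      apply hub
      · rw [hxx]; nlinarith
      · rw [hxx]
        have : s2 * (C k * C l + S k * S l) < s2 * 1 := mul_lt_mul_of_pos_left h3 hs2pos
        have h5 : c ^ 2 + s2 = 1 := by rw [hs2]; ring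
        linarith
  have byy : ∀ i j : Fin N, f (y i ⬝ᵥ y j) ≤ (A + ε) + if i = j then (2 : ℝ) else 0 := by
    intro i j
    by_cases hij : i = j
    · rw [if_pos hij, hij, hy1 j j.2, h1]; linarith
    · rw [if_neg hij, add_zero]
      have hij' : (i : ℕ) ≠ j := fun h => hij (Fin.ext h)
      apply hub
      · rw [hyy]
        exact two_dot_gt (hp0 i) (hp0 j) (hp1 i i.2).le (hp1 j j.2).le (hpl i) (hpl j)
      · rw [hyy]
        exact two_dot_lt (hsq i i.2) (hsq j j.2) (hpinj _ _ hij')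
  -- apply Cauchy-Schwarz
  let q : Fin N ⊕ Fin N → Fin n → ℝ := fun z =>
    Sum.elim (fun k : Fin N => x k) (fun i : Fin N => y i) z
  have hq1 : ∀ z, q z ⬝ᵥ q z = 1 := by
    rintro (k | i)
    · exact hx1 k
    · exact hy1 i i.2
  have hcs := kernel_cs h1 hV (Finset.univ : Finset (Fin N ⊕ Fin N))
    (fun z => Sum.elim (fun _ => (-1 : ℝ)) (fun _ => 1) z) q hq1 x0 hx0
  simp only [Fintype.sum_sum_type, Sum.elim_inl, Sum.elim_inr, q, hx0k, hx0y, hxy] at hcs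
  have hyx : ∀ i k, y i ⬝ᵥ x k = t i := by
    intro i k; rw [dotProduct_comm]; exact hxy k i
  simp only [hyx] at hcs
  have e1 : (N : ℝ) * (κ - ε) ≤ ∑ k : Fin N, -1 * f (b k) + ∑ i : Fin N, 1 * f (t i) := by
    rw [← Finset.sum_add_distrib]
    calc (N : ℝ) * (κ - ε) = ∑ _k : Fin N, (κ - ε) := by
          rw [Finset.sum_const, Finset.card_univ, Fintype.card_fin, nsmul_eq_mul]
      _ ≤ _ := by
          refine Finset.sum_le_sum fun k _ => ?_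
          have h2 := (hb k).2.2
          have h3 := (ht k).2.2
          linarith
  have e2 : ∑ k : Fin N, ∑ l : Fin N, f (x k ⬝ᵥ x l) ≤ (N : ℝ) ^ 2 * (A + ε) + 2 * N := by
    rw [← sum_ite_two]
    exact Finset.sum_le_sum fun k _ => Finset.sum_le_sum fun l _ => bxx k l
  have e3 : ∑ i : Fin N, ∑ j : Fin N, f (y i ⬝ᵥ y j) ≤ (N : ℝ) ^ 2 * (A + ε) + 2 * N := by
    rw [← sum_ite_two]
    exact Finset.sum_le_sum fun k _ => Finset.sum_le_sum fun l _ => byy k l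
  have e4 : (N : ℝ) ^ 2 * (A - ε) ≤ ∑ _k : Fin N, ∑ i : Fin N, f (t i) := by
    calc (N : ℝ) ^ 2 * (A - ε) = ∑ _k : Fin N, ∑ _i : Fin N, (A - ε) := by
          simp only [Finset.sum_const, Finset.card_univ, Fintype.card_fin, nsmul_eq_mul]
          ring
      _ ≤ _ := Finset.sum_le_sum fun k _ => Finset.sum_le_sum fun i _ => (ht i).2.2
  have e5 : ∑ i : Fin N, ∑ _k : Fin N, f (t i) = ∑ _k : Fin N, ∑ i : Fin N, f (t i) :=
    Finset.sum_comm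
  have e6 : (N : ℝ) ^ 2 * (κ - ε) ^ 2 ≤
      (∑ k : Fin N, -1 * f (b k) + ∑ i : Fin N, 1 * f (t i)) ^ 2 := by
    have h0 : 0 ≤ (N : ℝ) * (κ - ε) := by
      have : (0 : ℝ) ≤ N := Nat.cast_nonneg N
      have h2 : 0 ≤ κ - ε := by linarith
      positivity
    have := pow_le_pow_left₀ h0 e1 2
    rw [mul_pow] at this
    exact this
  have e7 := le_trans e6 hcs
  simp only [neg_mul, one_mul, mul_one, mul_neg, neg_neg, Finset.sum_neg_distrib,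
    Finset.sum_add_distrib] at e7
  linarith

end

lemma abs_f_le {n : ℕ} {H : Type*} [NormedAddCommGroup H] [InnerProductSpace ℂ H]
    {V : (Fin n → ℝ) → H} {f : ℝ → ℝ} (hn : 4 ≤ n) (h1 : f 1 = 1)
    (hV : ∀ x y : Fin n → ℝ, x ⬝ᵥ x = 1 → y ⬝ᵥ y = 1 →
      inner ℂ (V x) (V y) = ((f (x ⬝ᵥ y) : ℝ) : ℂ)) (t : ℝ) (ht : -1 ≤ t) (ht' : t ≤ 1) :
    |f t| ≤ 1 := by
  have hnorm : ∀ x : Fin n → ℝ, x ⬝ᵥ x = 1 → ‖V x‖ = 1 := by
    intro x hx
    have := inner_self_eq_norm_sq (𝕜 := ℂ) (V x)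
    rw [hV x x hx hx, hx, h1] at this
    have h2 : ‖V x‖ ^ 2 = 1 := by simpa using this.symm
    nlinarith [norm_nonneg (V x)]
  have hx : vec4 n 1 0 0 0 ⬝ᵥ vec4 n 1 0 0 0 = 1 := by rw [vec4_dot hn]; ring
  have hy : vec4 n t (Real.sqrt (1 - t ^ 2)) 0 0 ⬝ᵥ vec4 n t (Real.sqrt (1 - t ^ 2)) 0 0 = 1 := by
    rw [vec4_dot hn]
    have := Real.mul_self_sqrt (show 0 ≤ 1 - t ^ 2 by nlinarith)
    nlinarith
  have hxy : vec4 n 1 0 0 0 ⬝ᵥ vec4 n t (Real.sqrt (1 - t ^ 2)) 0 0 = t := by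
    rw [vec4_dot hn]; ring
  have h3 := norm_inner_le_norm (𝕜 := ℂ) (V (vec4 n 1 0 0 0))
    (V (vec4 n t (Real.sqrt (1 - t ^ 2)) 0 0))
  rw [hV _ _ hx hy, hxy, hnorm _ hx, hnorm _ hy, one_mul, Complex.norm_real,
    Real.norm_eq_abs] at h3
  exact h3

lemma exists_of_frequently {P : ℝ → Prop} (h : ∃ᶠ t in 𝓝[<] (1 : ℝ), P t) :
    ∀ l < (1 : ℝ), ∃ t, l < t ∧ t < 1 ∧ P t := by
  intro l hl
  have h2 : ∀ᶠ t in 𝓝[<] (1 : ℝ), t ∈ Set.Ioo l 1 := Ioo_mem_nhdsLT hl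
  obtain ⟨t, ht, ht2⟩ := (h.and_eventually h2).exists
  exact ⟨t, ht2.1, ht2.2, ht⟩

/-- module M3 -/
theorem Limit_proof.{u} : Stmt_Limit.{u} := by
  intro n H _ _ V f hn h1 hV
  have hev : ∀ᶠ t in 𝓝[<] (1 : ℝ), |f t| ≤ 1 := by
    have h2 : ∀ᶠ t in 𝓝[<] (1 : ℝ), t ∈ Set.Ioo (-1 : ℝ) 1 := Ioo_mem_nhdsLT (by norm_num)
    filter_upwards [h2] with t ht
    exact abs_f_le hn h1 hV t ht.1.le ht.2.le
  have hub : (𝓝[<] (1 : ℝ)).IsBoundedUnder (· ≤ ·) f :=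
    isBoundedUnder_of_eventually_le (a := 1) (hev.mono fun t ht => (abs_le.1 ht).2)
  have hlb : (𝓝[<] (1 : ℝ)).IsBoundedUnder (· ≥ ·) f :=
    isBoundedUnder_of_eventually_ge (a := -1) (hev.mono fun t ht => (abs_le.1 ht).1)
  have hcb : (𝓝[<] (1 : ℝ)).IsCoboundedUnder (· ≤ ·) f := hlb.isCoboundedUnder_flip
  set A := limsup f (𝓝[<] (1 : ℝ)) with hA
  have hA1 : -1 ≤ A :=
    le_limsup_of_frequently_le (hev.mono fun t ht => (abs_le.1 ht).1).frequently hub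
  refine ⟨A, tendsto_order.2 ⟨fun a' ha' => ?_, fun a' ha' => ?_⟩⟩
  swap
  · exact eventually_lt_of_limsup_lt ha' hub
  by_contra hcon
  have hbad : ∃ᶠ t in 𝓝[<] (1 : ℝ), f t ≤ a' := by
    intro h
    exact hcon (h.mono fun t ht => not_le.1 ht)
  set κ := min (A - a') 1 with hκ
  have hκ0 : 0 < κ := lt_min (by linarith) one_pos
  have hκ1 : κ ≤ 1 := min_le_right _ _
  have hκA : κ ≤ A - a' := min_le_left _ _
  set ε := κ ^ 2 / 16 with hε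
  have hε0 : 0 < ε := by positivity
  have hεκ : ε ≤ κ / 16 := by rw [hε]; nlinarith
  have hev2 : ∀ᶠ t in 𝓝[<] (1 : ℝ), f t < A + ε :=
    eventually_lt_of_limsup_lt (by linarith) hub
  obtain ⟨l0, hl0, hl0'⟩ := (mem_nhdsLT_iff_exists_Ioo_subset' (show (0 : ℝ) < 1 by norm_num)).1
    hev2
  have hgood : ∃ᶠ t in 𝓝[<] (1 : ℝ), A - ε < f t :=
    frequently_lt_of_lt_limsup hcb (by linarith)
  have key : ∀ N : ℕ, (κ - ε) ^ 2 * (N : ℝ) ^ 2 ≤ 4 * ε * (N : ℝ) ^ 2 + 4 * N := by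
    intro N
    refine key_ineq hn h1 hV A κ ε hA1 hε0 (by linarith) (max l0 0)
      (max_lt hl0 one_pos) (le_max_right _ _) ?_ ?_ ?_ N
    · intro t ht1 ht2
      exact le_of_lt (hl0' ⟨lt_of_le_of_lt (le_max_left _ _) ht1, ht2⟩)
    · intro l hl
      obtain ⟨t, h2, h3, h4⟩ := exists_of_frequently hgood l hl
      exact ⟨t, h2, h3, h4.le⟩
    · intro l hl
      obtain ⟨t, h2, h3, h4⟩ := exists_of_frequently hbad l hl
      exact ⟨t, h2, h3, by linarith⟩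
  have hD : 0 < (κ - ε) ^ 2 - 4 * ε := by
    have h2 : 15 / 16 * κ ≤ κ - ε := by linarith
    have h3 : (15 / 16 * κ) ^ 2 ≤ (κ - ε) ^ 2 := pow_le_pow_left₀ (by positivity) h2 2
    have h4 : 4 * ε = κ ^ 2 / 4 := by rw [hε]; ring
    nlinarith [pow_pos hκ0 2]
  obtain ⟨N, hN⟩ := exists_nat_gt (4 / ((κ - ε) ^ 2 - 4 * ε))
  have hN0 : (0 : ℝ) < N := lt_trans (by positivity) hN
  have h5 := key N
  rw [div_lt_iff₀ hD] at hN
  nlinarith

end Pool.Agent.ClassOne
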