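import Pool.Agent.ClassOne.Inv
import Pool.Agent.ClassOne.Cont

/-!
# A Funk-Hecke type identity
-/

open Matrix MeasureTheory Filter Topology
open scoped InnerProductSpace

namespace Pool.Agent.ClassOne

lemma dot_self_pos {n : ℕ} {x : Fin n → ℝ} (hx : x ≠ 0) : 0 < x ⬝ᵥ x := by
  have h1 : 0 ≤ x ⬝ᵥ x := Finset.sum_nonneg fun i _ => mul_self_nonneg _
  have h2 : x ⬝ᵥ x ≠ 0 := fun h => hx (dotProduct_self_eq_zero.1 h)
  exact lt_of_le_of_ne h1 h2.symm

lemma hat_unit {n : ℕ} {x : Fin n → ℝ} (hx : x ≠ 0) : hat x ⬝ᵥ hat x = 1 := by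
  have h := dot_self_pos hx
  unfold hat
  rw [smul_dotProduct, dotProduct_smul, smul_eq_mul, smul_eq_mul, ← mul_assoc, ← mul_inv,
    Real.mul_self_sqrt h.le, inv_mul_cancel₀ h.ne']

lemma continuousOn_hat {n : ℕ} : ContinuousOn (hat : (Fin n → ℝ) → (Fin n → ℝ)) {0}ᶜ := by
  have h1 : ContinuousOn (fun x : Fin n → ℝ => (Real.sqrt (x ⬝ᵥ x))⁻¹) {0}ᶜ := by
    refine ContinuousOn.inv₀ ?_ ?_
    · exact (by fun_prop : Continuous fun x : Fin n → ℝ => Real.sqrt (x ⬝ᵥ x)).continuousOn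
    · intro x hx
      exact (Real.sqrt_pos.2 (dot_self_pos hx)).ne'
  exact h1.smul continuous_id.continuousOn

lemma isOpen_ball (n : ℕ) : IsOpen (ball n) := isOpen_lt (by fun_prop) continuous_const

lemma volume_ball_lt_top (n : ℕ) : volume (ball n) < ⊤ := by
  refine lt_of_le_of_lt (measure_mono (?_ : ball n ⊆ Metric.closedBall 0 1)) measure_closedBall_lt_top
  intro x hx
  rw [mem_closedBall_zero_iff, pi_norm_le_iff_of_nonneg (by norm_num)]
  intro i
  have h1 : x i * x i ≤ x ⬝ᵥ x :=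
    Finset.single_le_sum (f := fun i => x i * x i) (fun j _ => mul_self_nonneg _) (Finset.mem_univ i)
  have h2 : x ⬝ᵥ x < 1 := hx
  rw [Real.norm_eq_abs]
  exact abs_le_one_iff_mul_self_le_one.2 (by linarith)

lemma ae_ne_zero {n : ℕ} (hn : 1 ≤ n) : ∀ᵐ x : Fin n → ℝ ∂(volume.restrict (ball n)), x ≠ 0 := by
  have : Nonempty (Fin n) := ⟨⟨0, hn⟩⟩
  refine ae_restrict_of_ae ?_
  rw [ae_iff]
  simp

lemma integrable_hat {n : ℕ} (hn : 1 ≤ n) {E : Type*} [NormedAddCommGroup E]
    {F : (Fin n → ℝ) → E} (hF : ContinuousOn F {x | x ⬝ᵥ x = 1}) {C : ℝ}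
    (hC : ∀ x, x ⬝ᵥ x = 1 → ‖F x‖ ≤ C) :
    Integrable (fun x => F (hat x)) (volume.restrict (ball n)) := by
  have h0 := ae_ne_zero hn
  have hcont : ContinuousOn (fun x => F (hat x)) (ball n ∩ {0}ᶜ) := by
    refine (hF.comp continuousOn_hat fun x hx => hat_unit hx).mono Set.inter_subset_right
  have hmeas : MeasurableSet (ball n ∩ {0}ᶜ) :=
    (isOpen_ball n).measurableSet.inter (measurableSet_singleton 0).compl
  have h1 : AEStronglyMeasurable (fun x => F (hat x)) (volume.restrict (ball n ∩ {0}ᶜ)) :=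
    hcont.aestronglyMeasurable hmeas
  have h2 : volume.restrict (ball n ∩ {0}ᶜ) = volume.restrict (ball n) := by
    refine Measure.restrict_congr_set ?_
    rw [ae_restrict_iff' (isOpen_ball n).measurableSet] at h0
    filter_upwards [h0] with x hx
    apply propext
    exact ⟨fun h => h.1, fun h => ⟨h, hx h⟩⟩
  rw [h2] at h1
  have : IsFiniteMeasure (volume.restrict (ball n)) :=
    ⟨by rw [Measure.restrict_apply_univ]; exact volume_ball_lt_top n⟩
  refine Integrable.of_bound h1 C ?_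
  filter_upwards [h0] with x hx
  exact hC _ (hat_unit hx)

/-- the reflection in the plane of `i0`, `i1` that maps `e_{i0}` to `pt i0 i1 t` -/
noncomputable def refl {n : ℕ} (i0 i1 : Fin n) (t : ℝ) : Matrix (Fin n) (Fin n) ℝ :=
  fun i => if i = i0 then pt i0 i1 t else
    if i = i1 then Real.sqrt (1 - t ^ 2) • Pi.single i0 1 - t • Pi.single i1 1 else Pi.single i 1

lemma refl_mul_transpose {n : ℕ} {i0 i1 : Fin n} (h : i0 ≠ i1) {t : ℝ}
    (ht : t ∈ Set.Icc (-1 : ℝ) 1) : refl i0 i1 t * (refl i0 i1 t)ᵀ = 1 := by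
  have h1 : (0 : ℝ) ≤ 1 - t ^ 2 := by nlinarith [ht.1, ht.2]
  have h2 := Real.mul_self_sqrt h1
  have key : ∀ i j, refl i0 i1 t i ⬝ᵥ refl i0 i1 t j = if i = j then 1 else 0 := by
    intro i j
    unfold refl
    by_cases hi0 : i = i0
    · subst hi0
      rw [if_pos rfl, pt_dot]
      by_cases hj0 : j = i
      · subst hj0
        rw [if_pos rfl, if_pos rfl, ← pt_dot, pt_unit h ht]
      · rw [if_neg hj0, if_neg (show ¬ i = j from fun h => hj0 h.symm)]
        by_cases hj1 : j = i1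
        · rw [if_pos hj1]
          simp [h, h.symm]
          ring
        · rw [if_neg hj1]
          simp [Ne.symm hj0, Ne.symm hj1]
    · rw [if_neg hi0]
      by_cases hi1 : i = i1
      · rw [if_pos hi1, sub_dotProduct, smul_dotProduct, smul_dotProduct, single_one_dotProduct,
          single_one_dotProduct]
        by_cases hj0 : j = i0
        · subst hj0
          rw [if_pos rfl, if_neg hi0]
          unfold pt
          simp [h, h.symm]
          ring
        · rw [if_neg hj0]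
          by_cases hj1 : j = i1
          · rw [if_pos hj1, hi1, hj1, if_pos rfl]
            simp [h, h.symm]
            nlinarith
          · rw [if_neg hj1, if_neg (by rw [hi1]; exact fun h => hj1 h.symm)]
            simp [Ne.symm hj0, Ne.symm hj1]
      · rw [if_neg hi1, single_one_dotProduct]
        by_cases hj0 : j = i0
        · rw [if_pos hj0, if_neg (by rw [hj0]; exact hi0)]
          unfold pt
          simp [hi0, hi1]
        · rw [if_neg hj0]
          by_cases hj1 : j = i1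
          · rw [if_pos hj1, if_neg (by rw [hj1]; exact hi1)]
            simp [hi0, hi1]
          · rw [if_neg hj1, Pi.single_apply]
  ext i j
  rw [one_apply]
  exact key i j

lemma refl_mulVec_i0 {n : ℕ} (i0 i1 : Fin n) (t : ℝ) (w : Fin n → ℝ) :
    (refl i0 i1 t *ᵥ w) i0 = t * w i0 + Real.sqrt (1 - t ^ 2) * w i1 := by
  have : (refl i0 i1 t *ᵥ w) i0 = refl i0 i1 t i0 ⬝ᵥ w := rfl
  rw [this]
  unfold refl
  rw [if_pos rfl, pt_dot]

lemma refl_mulVec_e0 {n : ℕ} {i0 i1 : Fin n} (h : i0 ≠ i1) (t : ℝ) :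
    refl i0 i1 t *ᵥ Pi.single i0 1 = pt i0 i1 t := by
  ext i
  have : (refl i0 i1 t *ᵥ Pi.single i0 1) i = refl i0 i1 t i ⬝ᵥ Pi.single i0 1 := rfl
  rw [this, dotProduct_single_one]
  unfold refl
  by_cases hi0 : i = i0
  · rw [if_pos hi0, hi0]
  · rw [if_neg hi0]
    by_cases hi1 : i = i1
    · rw [if_pos hi1, hi1]
      unfold pt
      simp [h, h.symm]
    · rw [if_neg hi1]
      unfold pt
      simp [hi0, hi1, Ne.symm hi0]

lemma SO_mul_transpose {n : ℕ} (g : SO n) : g.1 * (g.1)ᵀ = 1 := by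
  have h1 := (Matrix.mem_specialOrthogonalGroup_iff.1 g.2).1
  exact (Matrix.mem_orthogonalGroup_iff (Fin n) ℝ).1 h1

theorem Prod_proof.{u} : Stmt_Prod.{u} := by
  intro n H _ _ _ π D hn hlim i0 i1 hne m t ht
  obtain ⟨hfc, hVc⟩ := Cont_proof n H D.V D.f hn D.f_one D.inner_V hlim
  have hn1 : 1 ≤ n := by omega
  set e0 : Fin n → ℝ := Pi.single i0 1 with he0def
  have he0 : e0 ⬝ᵥ e0 = 1 := by simp [he0def]
  have h0 := ae_ne_zero hn1
  have hnV : ∀ x, x ⬝ᵥ x = 1 → ‖D.V x‖ = 1 := by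
    intro x hx
    have h1 : ‖D.V x‖ ^ 2 = 1 := by
      rw [norm_sq_eq_re_inner (𝕜 := ℂ), D.inner_V x x hx hx, hx, D.f_one]
      simp
    have h2 := norm_nonneg (D.V x)
    nlinarith
  -- the vector `Xi`
  set F : (Fin n → ℝ) → H := fun w => ((((w i0) ^ m : ℝ)) : ℂ) • D.V w with hF
  have hFint : Integrable (fun x => F (hat x)) (volume.restrict (ball n)) := by
    refine integrable_hat hn1 (C := 1) ?_ ?_
    · refine ContinuousOn.smul ?_ hVc
      exact (by fun_prop : Continuous fun w : Fin n → ℝ => (((w i0) ^ m : ℝ) : ℂ)).continuousOn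
    · intro x hx
      rw [hF]
      simp only
      rw [norm_smul, hnV x hx, mul_one, Complex.norm_real, Real.norm_eq_abs, abs_pow]
      refine pow_le_one₀ (abs_nonneg _) ?_
      have h1 : x i0 * x i0 ≤ x ⬝ᵥ x :=
        Finset.single_le_sum (f := fun i => x i * x i) (fun j _ => mul_self_nonneg _)
          (Finset.mem_univ i0)
      exact abs_le_one_iff_mul_self_le_one.2 (by linarith)
  set Xi : H := ∫ x in ball n, F (hat x) with hXi
  -- inner products with `Xi`
  have hinner : ∀ y : Fin n → ℝ, y ⬝ᵥ y = 1 →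
      inner ℂ (D.V y) Xi = ((∫ x in ball n, (hat x i0) ^ m * D.f (y ⬝ᵥ hat x) : ℝ) : ℂ) := by
    intro y hy
    rw [hXi, ← integral_inner hFint, ← integral_complex_ofReal]
    refine integral_congr_ae ?_
    filter_upwards [h0] with x hx
    rw [hF]
    simp only
    rw [inner_smul_right, D.inner_V y _ hy (hat_unit hx)]
    push_cast
    ring
  -- `Xi` is fixed by the stabiliser
  have hfix : ∀ g : SO n, g.1 *ᵥ e0 = e0 → π g Xi = Xi := by
    intro g hg
    have hgT := SO_mul_transpose g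
    set G : (Fin n → ℝ) → H := fun w => (((((g.1)ᵀ *ᵥ w) i0) ^ m : ℝ) : ℂ) • D.V w with hG
    have h1 : π g Xi = ∫ x in ball n, π g (F (hat x)) := by
      rw [hXi]
      exact (((π g).toContinuousLinearEquiv : H →L[ℂ] H).integral_comp_comm hFint).symm
    have h2 : ∫ x in ball n, π g (F (hat x)) = ∫ x in ball n, G (hat (g.1 *ᵥ x)) := by
      refine integral_congr_ae ?_
      filter_upwards [h0] with x hx
      rw [hG, hF]
      simp only
      rw [map_smul, D.act g _ (hat_unit hx), hat_mulVec hgT, mulVec_mulVec,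
        transpose_mul_self_of hgT, one_mulVec]
    have h3 : ∀ w, G w = F w := by
      intro w
      rw [hG, hF]
      simp only
      have h4 : ((g.1)ᵀ *ᵥ w) i0 = w i0 := by
        have h5 : ((g.1)ᵀ *ᵥ w) i0 = ((g.1)ᵀ *ᵥ w) ⬝ᵥ e0 := by simp [he0def]
        rw [h5, mulVec_transpose, ← dotProduct_mulVec, hg]
        simp [he0def]
      rw [h4]
    rw [h1, h2, Inv_proof n H G g.1 hgT]
    simp only [h3]
    rfl
  obtain ⟨c, hc⟩ := D.fixed e0 he0 Xi hfix
  -- the point `y`
  have hy := pt_unit hne ht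
  have hye0 : pt i0 i1 t ⬝ᵥ e0 = t := by
    rw [pt_dot]
    simp [he0def, hne.symm]
  have e1 := hinner e0 he0
  have e2 := hinner _ hy
  rw [hc, inner_smul_right, D.inner_V _ _ he0 he0, he0, D.f_one] at e1
  rw [hc, inner_smul_right, D.inner_V _ _ hy he0, hye0] at e2
  have e3 : c = ((∫ x in ball n, (hat x i0) ^ m * D.f (hat x i0) : ℝ) : ℂ) := by
    have : ∀ x : Fin n → ℝ, e0 ⬝ᵥ hat x = hat x i0 := fun x => by simp [he0def]
    simp only [this] at e1
    rw [← e1]
    simp
  rw [e3] at e2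
  have e4 : (∫ x in ball n, (hat x i0) ^ m * D.f (hat x i0)) * D.f t =
      ∫ x in ball n, (hat x i0) ^ m * D.f (pt i0 i1 t ⬝ᵥ hat x) := by exact_mod_cast e2
  rw [e4]
  -- change of variables
  have hA := refl_mul_transpose hne ht
  have e5 := Inv_proof n ℝ (fun w => (w i0) ^ m * D.f (pt i0 i1 t ⬝ᵥ w)) (refl i0 i1 t) hA
  rw [← e5]
  refine integral_congr_ae (Filter.Eventually.of_forall fun x => ?_)
  simp only
  rw [hat_mulVec hA, refl_mulVec_i0]
  congr 2
  rw [← refl_mulVec_e0 hne, dot_mulVec_mulVec hA]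
  simp

end Pool.Agent.ClassOne
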