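import Pool.Agent.ClassOne.Defs

/-!
# MP_91ad52_an: the left limit `a` of `f` at `1` satisfies `a ≤ a ^ 2` (module M4)
-/

open Matrix MeasureTheory Filter Topology
open scoped InnerProductSpace

namespace Pool.Agent.ClassOne

namespace SqAux

lemma min_point {F : Type*} [NormedAddCommGroup F] [InnerProductSpace ℝ F] [CompleteSpace F]
    (K : Set F) (ne : K.Nonempty) (hc : IsClosed K) (hconv : Convex ℝ K) :
    ∃ m ∈ K, ∀ w ∈ K, ‖w‖ = ‖m‖ → w = m := by
  obtain ⟨m, hm, h⟩ := exists_norm_eq_iInf_of_complete_convex ne hc.isComplete hconv 0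
  refine ⟨m, hm, fun w hw hwm => ?_⟩
  have h2 := (norm_eq_iInf_iff_real_inner_le_zero hconv hm).1 h w hw
  rw [zero_sub, inner_neg_left, inner_sub_right, real_inner_self_eq_norm_sq] at h2
  have h3 : ‖w - m‖ ^ 2 ≤ 0 := by
    rw [norm_sub_sq_real, hwm, real_inner_comm]
    linarith
  have h4 : ‖w - m‖ = 0 := by
    have := sq_nonneg ‖w - m‖
    exact pow_eq_zero_iff (two_ne_zero) |>.1 (le_antisymm h3 this)
  exact sub_eq_zero.1 (norm_eq_zero.1 h4)

lemma min_point' {H : Type*} [NormedAddCommGroup H] [InnerProductSpace ℂ H] [CompleteSpace H]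
    (K : Set H) (ne : K.Nonempty) (hc : IsClosed K) (hconv : Convex ℝ K) :
    ∃ m ∈ K, ∀ w ∈ K, ‖w‖ = ‖m‖ → w = m := by
  letI : InnerProductSpace ℝ H := InnerProductSpace.complexToReal
  exact min_point K ne hc hconv

variable {n : ℕ}

/-- a point at angle `arccos t` from `e_{i0}` -/
noncomputable def pt (i0 i1 : Fin n) (t : ℝ) : Fin n → ℝ :=
  Pi.single i0 t + Pi.single i1 (Real.sqrt (1 - t ^ 2))

lemma pt_dot {i0 i1 : Fin n} (h : i0 ≠ i1) {t : ℝ} (ht : t ^ 2 ≤ 1) :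
    pt i0 i1 t ⬝ᵥ pt i0 i1 t = 1 := by
  unfold pt
  rw [add_dotProduct, single_dotProduct, single_dotProduct]
  simp only [Pi.add_apply, Pi.single_eq_same, Pi.single_eq_of_ne h, Pi.single_eq_of_ne h.symm]
  have := Real.mul_self_sqrt (show 0 ≤ 1 - t ^ 2 by linarith)
  rw [add_zero, zero_add, this]
  ring

lemma pt_dot_single {i0 i1 : Fin n} (h : i0 ≠ i1) (t : ℝ) :
    pt i0 i1 t ⬝ᵥ Pi.single i0 1 = t := by
  rw [dotProduct_single]
  unfold pt
  simp only [Pi.add_apply, Pi.single_eq_same, Pi.single_eq_of_ne h]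
  ring

lemma dot_self_nonneg (z : Fin n → ℝ) : 0 ≤ z ⬝ᵥ z := by
  unfold dotProduct
  exact Finset.sum_nonneg (fun i _ => mul_self_nonneg _)

lemma dot_le_one {y y' : Fin n → ℝ} (hy : y ⬝ᵥ y = 1) (hy' : y' ⬝ᵥ y' = 1) :
    y ⬝ᵥ y' ≤ 1 := by
  have h := dot_self_nonneg (y - y')
  rw [sub_dotProduct, dotProduct_sub, dotProduct_sub, hy, hy', dotProduct_comm y' y] at h
  linarith

lemma dot_lower {x y y' : Fin n → ℝ} {t : ℝ} (hx : x ⬝ᵥ x = 1) (hy : y ⬝ᵥ y = 1)
    (hy' : y' ⬝ᵥ y' = 1) (h1 : y ⬝ᵥ x = t) (h2 : y' ⬝ᵥ x = t) :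
    2 * t ^ 2 - 1 ≤ y ⬝ᵥ y' := by
  have h := dot_self_nonneg (y + y' - (2 * t) • x)
  simp only [sub_dotProduct, dotProduct_sub, add_dotProduct, dotProduct_add, smul_dotProduct,
    dotProduct_smul, smul_eq_mul] at h
  rw [hy, hy', hx, h1, h2, dotProduct_comm y' y, dotProduct_comm x y, dotProduct_comm x y',
    h1, h2] at h
  nlinarith

section

variable {H : Type*} [NormedAddCommGroup H] [InnerProductSpace ℂ H]
  {π : SO n →* (H ≃ₗᵢ[ℂ] H)}

lemma norm_V (D : SphData π) {x : Fin n → ℝ} (hx : x ⬝ᵥ x = 1) : ‖D.V x‖ = 1 := by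
  have h := congrArg Complex.re (D.inner_V x x hx hx)
  rw [hx, D.f_one, Complex.ofReal_re] at h
  have h2 : ‖D.V x‖ ^ 2 = 1 := by
    rw [← h]; exact (inner_self_eq_norm_sq (𝕜 := ℂ) (D.V x)).symm
  have h3 := norm_nonneg (D.V x)
  nlinarith

lemma f_abs_le (D : SphData π) {i0 i1 : Fin n} (h : i0 ≠ i1) {t : ℝ} (ht : t ^ 2 ≤ 1) :
    |D.f t| ≤ 1 := by
  have h1 := pt_dot h ht
  have h2 : (Pi.single i0 1 : Fin n → ℝ) ⬝ᵥ Pi.single i0 1 = 1 := by simp
  have h3 := D.inner_V _ _ h1 h2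
  rw [pt_dot_single h] at h3
  have h4 := norm_inner_le_norm (𝕜 := ℂ) (D.V (pt i0 i1 t)) (D.V (Pi.single i0 1))
  rw [h3, norm_V D h1, norm_V D h2, mul_one, Complex.norm_real, Real.norm_eq_abs] at h4
  exact h4

lemma hull_min {S T : Set H} (h : S ⊆ T) (hconv : Convex ℝ T) (hc : IsClosed T) :
    closure (convexHull ℝ S) ⊆ T :=
  closure_minimal (convexHull_min h hconv) hc

lemma inner_real_smul (v w : H) (c : ℝ) : inner ℂ v (c • w) = (c : ℂ) * inner ℂ v w := by
  rw [← Complex.coe_smul, inner_smul_right]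

/-- the key inequality at a fixed `t` -/
lemma key [CompleteSpace H] (D : SphData π) {i0 i1 : Fin n} (h : i0 ≠ i1) {t b : ℝ}
    (ht : t ^ 2 ≤ 1) (hb : ∀ s : ℝ, 2 * t ^ 2 - 1 ≤ s → s ≤ 1 → b ≤ D.f s) :
    b ≤ D.f t ^ 2 := by
  set x : Fin n → ℝ := Pi.single i0 1 with hx
  have hxx : x ⬝ᵥ x = 1 := by rw [hx]; simp
  set S : Set H := D.V '' {y | y ⬝ᵥ y = 1 ∧ y ⬝ᵥ x = t} with hS
  set K : Set H := closure (convexHull ℝ S) with hK
  have hSK : S ⊆ K := (subset_convexHull ℝ S).trans subset_closure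
  have hKconv : Convex ℝ K := (convex_convexHull ℝ S).closure
  have hne : K.Nonempty := ⟨D.V (pt i0 i1 t), hSK ⟨pt i0 i1 t, ⟨pt_dot h ht, pt_dot_single h t⟩, rfl⟩⟩
  obtain ⟨m, hm, huniq⟩ := min_point' K hne isClosed_closure hKconv
  -- `m` is fixed
  have hfix : ∀ g : SO n, g.1 *ᵥ x = x → π g m = m := by
    intro g hg
    refine huniq _ ?_ ((π g).norm_map m)
    have hsub : K ⊆ {w | π g w ∈ K} := by
      refine hull_min ?_ ?_ ?_
      · rintro _ ⟨y, ⟨hy1, hy2⟩, rfl⟩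
        refine hSK ⟨g.1 *ᵥ y, ⟨?_, ?_⟩, (D.act g y hy1).symm⟩
        · have : (g.1)ᵀ * g.1 = 1 := by
            have h := (Matrix.mem_specialUnitaryGroup_iff.1 g.2).1
            have h2 := (Matrix.mem_unitaryGroup_iff').1 h
            rw [Matrix.star_eq_conjTranspose] at h2
            have h3 : (g.1)ᴴ = (g.1)ᵀ := by
              ext i j; simp [Matrix.conjTranspose_apply, Matrix.transpose_apply]
            rwa [h3] at h2
          rw [Matrix.dotProduct_mulVec, Matrix.vecMul_mulVec, this, Matrix.vecMul_one, hy1]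
        · have : (g.1)ᵀ * g.1 = 1 := by
            have h := (Matrix.mem_specialUnitaryGroup_iff.1 g.2).1
            have h2 := (Matrix.mem_unitaryGroup_iff').1 h
            rw [Matrix.star_eq_conjTranspose] at h2
            have h3 : (g.1)ᴴ = (g.1)ᵀ := by
              ext i j; simp [Matrix.conjTranspose_apply, Matrix.transpose_apply]
            rwa [h3] at h2
          conv_lhs => rw [← hg]
          rw [Matrix.dotProduct_mulVec, Matrix.vecMul_mulVec, this, Matrix.vecMul_one, hy2]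
      · intro w1 hw1 w2 hw2 c1 c2 hc1 hc2 hc
        simp only [Set.mem_setOf_eq] at hw1 hw2 ⊢
        rw [map_add, map_real_smul (π g) (π g).continuous, map_real_smul (π g) (π g).continuous]
        exact hKconv hw1 hw2 hc1 hc2 hc
      · exact isClosed_closure.preimage (π g).continuous
    exact hsub hm
  obtain ⟨c, hc⟩ := D.fixed x hxx m hfix
  -- the inner product with `V x`
  have hin : K ⊆ {w | inner ℂ (D.V x) w = ((D.f t : ℝ) : ℂ)} := by
    refine hull_min ?_ ?_ ?_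
    · rintro _ ⟨y, ⟨hy1, hy2⟩, rfl⟩
      simp only [Set.mem_setOf_eq]
      rw [D.inner_V x y hxx hy1, dotProduct_comm, hy2]
    · intro w1 hw1 w2 hw2 c1 c2 hc1 hc2 hc
      simp only [Set.mem_setOf_eq] at hw1 hw2 ⊢
      rw [inner_add_right, inner_real_smul, inner_real_smul, hw1, hw2, ← add_mul]
      have : ((c1 : ℂ) + c2) = 1 := by exact_mod_cast hc
      rw [this, one_mul]
    · exact isClosed_eq (continuous_const.inner continuous_id) continuous_const
  have hcf : c = ((D.f t : ℝ) : ℂ) := by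
    have h1 : inner ℂ (D.V x) m = ((D.f t : ℝ) : ℂ) := hin hm
    rw [hc, inner_smul_right, inner_self_eq_norm_sq_to_K, norm_V D hxx] at h1
    rw [← h1]
    simp
  have hmm : (inner ℂ m m).re = D.f t ^ 2 := by
    rw [hc, hcf, inner_smul_left, inner_smul_right, inner_self_eq_norm_sq_to_K, norm_V D hxx]
    simp [sq]
  -- the lower bound
  have hlow1 : ∀ y : Fin n → ℝ, y ⬝ᵥ y = 1 → y ⬝ᵥ x = t →
      K ⊆ {w | b ≤ (inner ℂ (D.V y) w).re} := by
    intro y hy1 hy2
    refine hull_min ?_ ?_ ?_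
    · rintro _ ⟨y', ⟨hy1', hy2'⟩, rfl⟩
      simp only [Set.mem_setOf_eq]
      rw [D.inner_V y y' hy1 hy1', Complex.ofReal_re]
      exact hb _ (dot_lower hxx hy1 hy1' hy2 hy2') (dot_le_one hy1 hy1')
    · intro w1 hw1 w2 hw2 c1 c2 hc1 hc2 hc
      simp only [Set.mem_setOf_eq] at hw1 hw2 ⊢
      rw [inner_add_right, inner_real_smul, inner_real_smul, Complex.add_re,
        Complex.re_ofReal_mul, Complex.re_ofReal_mul]
      have e : b = c1 * b + c2 * b := by rw [← add_mul, hc, one_mul]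
      have := mul_le_mul_of_nonneg_left hw1 hc1
      have := mul_le_mul_of_nonneg_left hw2 hc2
      linarith
    · exact isClosed_le continuous_const
        (Complex.continuous_re.comp (continuous_const.inner continuous_id))
  have hlow2 : K ⊆ {w | b ≤ (inner ℂ m w).re} := by
    refine hull_min ?_ ?_ ?_
    · rintro _ ⟨y', ⟨hy1', hy2'⟩, rfl⟩
      have := hlow1 y' hy1' hy2' hm
      simp only [Set.mem_setOf_eq] at this ⊢
      rw [← inner_conj_symm, Complex.conj_re]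
      exact this
    · intro w1 hw1 w2 hw2 c1 c2 hc1 hc2 hc
      simp only [Set.mem_setOf_eq] at hw1 hw2 ⊢
      rw [inner_add_right, inner_real_smul, inner_real_smul, Complex.add_re,
        Complex.re_ofReal_mul, Complex.re_ofReal_mul]
      have e : b = c1 * b + c2 * b := by rw [← add_mul, hc, one_mul]
      have := mul_le_mul_of_nonneg_left hw1 hc1
      have := mul_le_mul_of_nonneg_left hw2 hc2
      linarith
    · exact isClosed_le continuous_const
        (Complex.continuous_re.comp (continuous_const.inner continuous_id))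
  have := hlow2 hm
  simp only [Set.mem_setOf_eq] at this
  rw [hmm] at this
  exact this

end

end SqAux

open SqAux in
/-- module M4 -/
theorem Sq_proof.{u} : Stmt_Sq.{u} := by
  intro n H _ _ _ π D a hn hlim
  set i0 : Fin n := ⟨0, by omega⟩ with hi0
  set i1 : Fin n := ⟨1, by omega⟩ with hi1
  have h01 : i0 ≠ i1 := by simp [hi0, hi1, Fin.ext_iff]
  have hev : ∀ᶠ t in 𝓝[<] (1 : ℝ), 0 < t ∧ t < 1 := by
    have h1 : ∀ᶠ t in 𝓝[<] (1 : ℝ), t ∈ Set.Ioo (0 : ℝ) 1 :=
      Ioo_mem_nhdsLT (by norm_num)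
    exact h1
  have ha1 : a ≤ 1 := by
    refine le_of_tendsto hlim ?_
    filter_upwards [hev] with t ht
    exact (abs_le.1 (f_abs_le D h01 (by nlinarith [ht.1, ht.2]))).2
  refine le_of_forall_pos_sub_le (fun ε hε => ?_)
  -- eventually `a - ε ≤ f s`
  have h1 : ∀ᶠ s in 𝓝[<] (1 : ℝ), a - ε ≤ D.f s := by
    have := hlim.eventually (lt_mem_nhds (show a - ε < a by linarith))
    filter_upwards [this] with s hs using hs.le
  obtain ⟨δ, hδ1, hδ⟩ := (mem_nhdsLT_iff_exists_Ioo_subset' (show (0 : ℝ) < 1 by norm_num)).1 h1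
  have h2 : ∀ᶠ t in 𝓝[<] (1 : ℝ), a - ε ≤ D.f t ^ 2 := by
    have hcont : Tendsto (fun t : ℝ => 2 * t ^ 2 - 1) (𝓝[<] 1) (𝓝 1) := by
      have : Tendsto (fun t : ℝ => 2 * t ^ 2 - 1) (𝓝 1) (𝓝 (2 * 1 ^ 2 - 1)) :=
        (by fun_prop : Continuous (fun t : ℝ => 2 * t ^ 2 - 1)).tendsto 1
      norm_num at this
      exact this.mono_left nhdsWithin_le_nhds
    have h3 := hcont.eventually (lt_mem_nhds hδ1)
    filter_upwards [hev, h3] with t ht ht3
    refine key D h01 (by nlinarith [ht.1, ht.2]) (fun s hs1 hs2 => ?_)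
    rcases eq_or_lt_of_le hs2 with h | h
    · rw [h, D.f_one]; linarith
    · exact hδ ⟨lt_of_lt_of_le ht3 hs1, h⟩
  have h3 : Tendsto (fun t => D.f t ^ 2) (𝓝[<] 1) (𝓝 (a ^ 2)) := hlim.pow 2
  exact ge_of_tendsto h3 h2

end Pool.Agent.ClassOne
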