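import Mathlib
import Pool.Agent.ClassOne.Defs

set_option autoImplicit false

open Matrix

namespace Pool.Agent.ClassOne

namespace TwoPointM

variable {n : ℕ}

/-- the (unnormalised) Householder matrix of `w` -/
noncomputable def Hh (w : Fin n → ℝ) : Matrix (Fin n) (Fin n) ℝ :=
  1 + replicateCol Unit ((-2 / (w ⬝ᵥ w)) • w) * replicateRow Unit w

theorem Hh_mulVec (w z : Fin n → ℝ) : Hh w *ᵥ z = z - (2 * (w ⬝ᵥ z) / (w ⬝ᵥ w)) • w := by
  unfold Hh
  rw [add_mulVec, one_mulVec, ← mulVec_mulVec, replicateRow_mulVec_eq_const]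
  ext i
  simp only [Pi.add_apply, Pi.sub_apply, Pi.smul_apply, smul_eq_mul, mulVec, dotProduct,
    replicateCol_apply, Finset.univ_unique, Finset.sum_singleton, Function.const_apply]
  ring

theorem Hh_transpose (w : Fin n → ℝ) : (Hh w)ᵀ = Hh w := by
  ext i j
  rcases eq_or_ne i j with h | h
  · subst h; rfl
  · simp only [Hh, transpose_apply, Matrix.add_apply, Matrix.mul_apply, replicateCol_apply,
      replicateRow_apply, Pi.smul_apply, smul_eq_mul, Finset.univ_unique, Finset.sum_singleton,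
      Matrix.one_apply_ne h, Matrix.one_apply_ne h.symm]
    ring

theorem Hh_mul_self (w : Fin n → ℝ) (hw : w ⬝ᵥ w ≠ 0) : Hh w * Hh w = 1 := by
  apply Matrix.toLin'.injective
  apply LinearMap.ext
  intro z
  rw [toLin'_mul, LinearMap.comp_apply, toLin'_apply, toLin'_apply, toLin'_one, LinearMap.id_apply,
    Hh_mulVec, Hh_mulVec, dotProduct_sub, dotProduct_smul]
  ext i
  simp only [Pi.sub_apply, Pi.smul_apply, smul_eq_mul]
  field_simp
  ring

theorem Hh_orth (w : Fin n → ℝ) (hw : w ⬝ᵥ w ≠ 0) : Hh w * (Hh w)ᵀ = 1 := by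
  rw [Hh_transpose, Hh_mul_self w hw]

theorem Hh_det (w : Fin n → ℝ) (hw : w ⬝ᵥ w ≠ 0) : (Hh w).det = -1 := by
  unfold Hh
  rw [det_one_add_replicateCol_mul_replicateRow, dotProduct_smul, smul_eq_mul]
  field_simp
  norm_num

theorem reflect (x x' : Fin n → ℝ) (h : x ⬝ᵥ x = x' ⬝ᵥ x') :
    ∃ A : Matrix (Fin n) (Fin n) ℝ, A * Aᵀ = 1 ∧ A *ᵥ x = x' ∧
      ∀ z, x ⬝ᵥ z = x' ⬝ᵥ z → A *ᵥ z = z := by
  by_cases hx : x = x'
  · subst hx
    exact ⟨1, by simp, by simp, by simp⟩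
  · have hw : (x - x') ⬝ᵥ (x - x') ≠ 0 := by
      intro h0
      exact hx (sub_eq_zero.mp (dotProduct_self_eq_zero.mp h0))
    refine ⟨Hh (x - x'), Hh_orth _ hw, ?_, ?_⟩
    · rw [Hh_mulVec]
      have h1 : 2 * ((x - x') ⬝ᵥ x) / ((x - x') ⬝ᵥ (x - x')) = 1 := by
        rw [div_eq_one_iff_eq hw, sub_dotProduct, sub_dotProduct, dotProduct_sub, dotProduct_sub,
          dotProduct_comm x' x, ← h]
        ring
      rw [h1, one_smul]
      abel
    · intro z hz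
      rw [Hh_mulVec, sub_dotProduct, hz]
      simp

end TwoPointM

open TwoPointM in
theorem TwoPoint_proof : Stmt_TwoPoint := by
  intro n hn x y x' y' hx hy hx' hy' hxy
  obtain ⟨A1, hA1, hA1x, -⟩ := reflect x x' (hx.trans hx'.symm)
  -- A1 preserves dot products
  have hdot : ∀ (A : Matrix (Fin n) (Fin n) ℝ), A * Aᵀ = 1 → ∀ u v, (A *ᵥ u) ⬝ᵥ (A *ᵥ v) = u ⬝ᵥ v := by
    intro A hA u v
    have hA' : Aᵀ * A = 1 := mul_eq_one_comm.mp hA
    rw [dotProduct_mulVec, ← mulVec_transpose, mulVec_mulVec, hA', one_mulVec]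
  have h1 : (A1 *ᵥ y) ⬝ᵥ (A1 *ᵥ y) = y' ⬝ᵥ y' := by rw [hdot A1 hA1, hy, hy']
  obtain ⟨A2, hA2, hA2y, hA2fix⟩ := reflect (A1 *ᵥ y) y' h1
  have hA2x : A2 *ᵥ x' = x' := by
    apply hA2fix
    rw [← hA1x, hdot A1 hA1, dotProduct_comm y x, hxy, hA1x, dotProduct_comm]
  set A := A2 * A1 with hA
  have hAo : A * Aᵀ = 1 := by
    rw [hA, transpose_mul, Matrix.mul_assoc, ← Matrix.mul_assoc A1, hA1, Matrix.one_mul, hA2]
  have hAx : A *ᵥ x = x' := by rw [hA, ← mulVec_mulVec, hA1x, hA2x]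
  have hAy : A *ᵥ y = y' := by rw [hA, ← mulVec_mulVec, hA2y]
  have hdet : A.det = 1 ∨ A.det = -1 := by
    have := congrArg Matrix.det hAo
    rw [det_mul, det_transpose, det_one] at this
    exact mul_self_eq_one_iff.mp this
  rcases hdet with hd | hd
  · exact ⟨⟨A, mem_specialOrthogonalGroup_iff.mpr ⟨(mem_orthogonalGroup_iff (Fin n) ℝ).mpr hAo, hd⟩⟩, hAx, hAy⟩
  · -- a vector orthogonal to x' and y'
    let F : (Fin n → ℝ) →ₗ[ℝ] ℝ × ℝ :=
      { toFun := fun z => (x' ⬝ᵥ z, y' ⬝ᵥ z)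
        map_add' := by intro a b; simp [dotProduct_add]
        map_smul' := by intro c a; simp [dotProduct_smul] }
    have hF : LinearMap.ker F ≠ ⊥ := by
      apply F.ker_ne_bot_of_finrank_lt
      simp only [Module.finrank_prod, Module.finrank_self, Module.finrank_fin_fun]
      omega
    obtain ⟨z, hz, hz0⟩ := (Submodule.ne_bot_iff _).mp hF
    have hz1 : x' ⬝ᵥ z = 0 := congrArg Prod.fst (LinearMap.mem_ker.mp hz)
    have hz2 : y' ⬝ᵥ z = 0 := congrArg Prod.snd (LinearMap.mem_ker.mp hz)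
    have hzz : z ⬝ᵥ z ≠ 0 := fun h0 => hz0 (dotProduct_self_eq_zero.mp h0)
    have hBo : (Hh z * A) * (Hh z * A)ᵀ = 1 := by
      rw [transpose_mul, Matrix.mul_assoc, ← Matrix.mul_assoc A, hAo, Matrix.one_mul, Hh_orth z hzz]
    have hBd : (Hh z * A).det = 1 := by
      rw [det_mul, Hh_det z hzz, hd]; norm_num
    refine ⟨⟨Hh z * A, mem_specialOrthogonalGroup_iff.mpr
      ⟨(mem_orthogonalGroup_iff (Fin n) ℝ).mpr hBo, hBd⟩⟩, ?_, ?_⟩
    · show (Hh z * A) *ᵥ x = x'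
      rw [← mulVec_mulVec, hAx, Hh_mulVec, dotProduct_comm z x', hz1]
      simp
    · show (Hh z * A) *ᵥ y = y'
      rw [← mulVec_mulVec, hAy, Hh_mulVec, dotProduct_comm z y', hz2]
      simp

end Pool.Agent.ClassOne
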