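import Pool.Agent.ClassOne.Limit

/-!
# MP_91ad52_an: if the limit at `1` is `≤ 0` then `f = 0` on `(-1,1)` (module M5)
-/

open Matrix MeasureTheory Filter Topology
open scoped InnerProductSpace

namespace Pool.Agent.ClassOne

/-- vector with the first three coordinates `a b c` -/
def vec3 (n : ℕ) (a b c : ℝ) : Fin n → ℝ := fun j =>
  if j.1 = 0 then a else if j.1 = 1 then b else if j.1 = 2 then c else 0

lemma vec3_zero (m : ℕ) (a b c : ℝ) : vec3 (m + 3) a b c 0 = a := rfl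
lemma vec3_one (m : ℕ) (a b c : ℝ) : vec3 (m + 3) a b c (Fin.succ 0) = b := rfl
lemma vec3_two (m : ℕ) (a b c : ℝ) : vec3 (m + 3) a b c (Fin.succ (Fin.succ 0)) = c := rfl

lemma vec3_dot {n : ℕ} (hn : 3 ≤ n) (a b c a' b' c' : ℝ) :
    vec3 n a b c ⬝ᵥ vec3 n a' b' c' = a * a' + b * b' + c * c' := by
  obtain ⟨m, rfl⟩ : ∃ m, n = m + 3 := ⟨n - 3, by omega⟩
  simp only [dotProduct, Fin.sum_univ_succ]
  have h : ∀ i : Fin m, vec3 (m + 3) a b c i.succ.succ.succ = 0 := by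
    intro i
    simp [vec3, Fin.val_succ]
  simp only [h, zero_mul, Finset.sum_const_zero, vec3_zero, vec3_one, vec3_two]
  ring

/-- module M5 -/
theorem Zero_proof.{u} : Stmt_Zero.{u} := by
  intro n H _ _ V f a hn h1 hV hlim ha t ht
  have key : ∀ ε > 0, ∀ N : ℕ, (N : ℝ) ^ 2 * f t ^ 2 ≤ (N : ℝ) ^ 2 * ε + 2 * N := by
    intro ε hε N
    have hev : ∀ᶠ s in 𝓝[<] (1 : ℝ), f s < ε := hlim.eventually (gt_mem_nhds (by linarith))
    obtain ⟨l0, hl0, hl0'⟩ :=
      (mem_nhdsLT_iff_exists_Ioo_subset' (show (0 : ℝ) < 1 by norm_num)).1 hev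
    have hl0 : l0 < 1 := hl0
    obtain ⟨C, hCm, hC⟩ := pick_seq (fun _ => True)
      (fun l hl => ⟨(l + 1) / 2, by linarith, by linarith, trivial⟩) (max l0 0)
      (max_lt hl0 one_pos)
    have hC0 : ∀ k, 0 ≤ C k := fun k => le_trans (le_max_right _ _) (hC k).1.le
    have hCl : ∀ k, max l0 0 < C k := fun k => (hC k).1
    have hC1 : ∀ k, C k < 1 := fun k => (hC k).2.1
    have hS : ∀ k, C k ^ 2 + Real.sqrt (1 - C k ^ 2) ^ 2 = 1 := by
      intro k
      rw [Real.sq_sqrt (by nlinarith [hC0 k, hC1 k])]; ring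
    set r := Real.sqrt (1 - t ^ 2) with hr
    have hr0 : 0 < 1 - t ^ 2 := by nlinarith [ht.1, ht.2]
    have hrr : r * r = 1 - t ^ 2 := Real.mul_self_sqrt hr0.le
    let y : ℕ → Fin n → ℝ := fun k => vec3 n t (r * C k) (r * Real.sqrt (1 - C k ^ 2))
    have hyy : ∀ k l, y k ⬝ᵥ y l = t ^ 2 + (1 - t ^ 2) *
        (C k * C l + Real.sqrt (1 - C k ^ 2) * Real.sqrt (1 - C l ^ 2)) := by
      intro k l
      show vec3 n t (r * C k) (r * Real.sqrt (1 - C k ^ 2)) ⬝ᵥ
        vec3 n t (r * C l) (r * Real.sqrt (1 - C l ^ 2)) = _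
      rw [vec3_dot hn, ← hrr]; ring
    have hy1 : ∀ k, y k ⬝ᵥ y k = 1 := by
      intro k
      rw [hyy]
      have h2 : C k * C k + Real.sqrt (1 - C k ^ 2) * Real.sqrt (1 - C k ^ 2) = 1 := by
        nlinarith [hS k]
      rw [h2]; ring
    have hz : vec3 n 1 0 0 ⬝ᵥ vec3 n 1 0 0 = 1 := by rw [vec3_dot hn]; ring
    have hzy : ∀ k, vec3 n 1 0 0 ⬝ᵥ y k = t := by
      intro k
      show vec3 n 1 0 0 ⬝ᵥ vec3 n t (r * C k) (r * Real.sqrt (1 - C k ^ 2)) = t
      rw [vec3_dot hn]; ring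
    have hb : ∀ k l : Fin N, f (y k ⬝ᵥ y l) ≤ ε + if k = l then (2 : ℝ) else 0 := by
      intro k l
      by_cases hkl : k = l
      · rw [if_pos hkl, hkl, hy1, h1]; linarith
      · rw [if_neg hkl, add_zero]
        have hkl' : (k : ℕ) ≠ l := fun h => hkl (Fin.ext h)
        have h3 := two_dot_lt (hS k) (hS l) (fun h => hkl' (hCm.injective h))
        have h4 := two_dot_gt (hC0 k) (hC0 l) (hC1 k).le (hC1 l).le (hCl k) (hCl l)
        refine le_of_lt (hl0' ⟨?_, ?_⟩)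
        · rw [hyy]
          have h5 : l0 ≤ max l0 0 := le_max_left _ _
          have h6 : (1 - t ^ 2) * max l0 0 < (1 - t ^ 2) *
            (C k * C l + Real.sqrt (1 - C k ^ 2) * Real.sqrt (1 - C l ^ 2)) :=
            mul_lt_mul_of_pos_left h4 hr0
          have h7 : max l0 0 ≤ 1 := (max_lt hl0 one_pos).le
          nlinarith [sq_nonneg t]
        · rw [hyy]
          have h6 := mul_lt_mul_of_pos_left h3 hr0
          linarith
    have hcs := kernel_cs h1 hV (Finset.univ : Finset (Fin N)) (fun _ => (1 : ℝ))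
      (fun k => y k) (fun k => hy1 k) (vec3 n 1 0 0) hz
    simp only [hzy, one_mul, Finset.sum_const, Finset.card_univ, Fintype.card_fin,
      nsmul_eq_mul] at hcs
    have e2 : ∑ k : Fin N, ∑ l : Fin N, f (y k ⬝ᵥ y l) ≤ (N : ℝ) ^ 2 * ε + 2 * N := by
      rw [← sum_ite_two]
      exact Finset.sum_le_sum fun k _ => Finset.sum_le_sum fun l _ => hb k l
    rw [← mul_pow]
    exact le_trans hcs e2
  by_contra hne
  have hpos : 0 < f t ^ 2 := by positivity
  obtain ⟨N, hN⟩ := exists_nat_gt (4 / f t ^ 2)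
  have hN0 : (0 : ℝ) < N := lt_trans (by positivity) hN
  have h5 := key (f t ^ 2 / 2) (by positivity) N
  rw [div_lt_iff₀ hpos] at hN
  nlinarith

end Pool.Agent.ClassOne
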