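import Pool.Agent.ClassOne.Build
import Pool.Agent.ClassOne.Zero
import Pool.Agent.ClassOne.TwoPoint
import Pool.Agent.ClassOne.Sq
import Pool.Agent.ClassOne.Prod
import Pool.Agent.ClassOne.Fin
import Pool.Agent.ClassOne.Gegen

/-!
# MP_91ad52_an: assembly
-/

open Matrix MeasureTheory Filter Topology
open scoped InnerProductSpace

namespace Pool.Agent.ClassOne

section

variable {n : ℕ} {H : Type*} [NormedAddCommGroup H] [InnerProductSpace ℂ H]

lemma SphData.norm_V {π : SO n →* (H ≃ₗᵢ[ℂ] H)} (D : SphData π) (x : Fin n → ℝ)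
    (hx : x ⬝ᵥ x = 1) : ‖D.V x‖ = 1 := by
  have := inner_self_eq_norm_sq (𝕜 := ℂ) (D.V x)
  rw [D.inner_V x x hx hx, hx, D.f_one] at this
  have h2 : ‖D.V x‖ ^ 2 = 1 := by simpa using this.symm
  nlinarith [norm_nonneg (D.V x)]

lemma SphData.f_neg_one {π : SO n →* (H ≃ₗᵢ[ℂ] H)} (D : SphData π) (x : Fin n → ℝ)
    (hx : x ⬝ᵥ x = 1) : D.f (-1) = 1 ∨ D.f (-1) = -1 := by
  have hnx : (-x) ⬝ᵥ (-x) = 1 := by rw [neg_dotProduct_neg, hx]
  obtain ⟨c, hc⟩ := D.fixed x hx (D.V (-x)) (by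
    intro g hg
    rw [D.act g _ hnx, Matrix.mulVec_neg, hg])
  have h1 : ‖c‖ = 1 := by
    have := D.norm_V (-x) hnx
    rw [hc, norm_smul, D.norm_V x hx, mul_one] at this
    exact this
  have h2 := D.inner_V x (-x) hx hnx
  rw [hc, inner_smul_right, D.inner_V x x hx hx, hx, D.f_one, dotProduct_neg, hx] at h2
  have h3 : c = ((D.f (-1) : ℝ) : ℂ) := by rw [← h2]; simp
  rw [h3, Complex.norm_real, Real.norm_eq_abs] at h1
  exact eq_or_eq_neg_of_abs_eq h1

lemma SphData.state {π : SO n →* (H ≃ₗᵢ[ℂ] H)} (D : SphData π) (i0 : Fin n) (g : SO n) :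
    inner ℂ (D.V (Pi.single i0 1)) (π g (D.V (Pi.single i0 1))) =
      ((D.f (g.1 i0 i0) : ℝ) : ℂ) := by
  have he := single_dot_single i0
  rw [D.act g _ he, D.inner_V _ _ he (by rw [SO_dot, he])]
  congr 2
  rw [single_one_dotProduct, Matrix.mulVec_single_one, Matrix.col_apply]

lemma SO_entry_abs_le (i0 : Fin n) (g : SO n) : |g.1 i0 i0| ≤ 1 := by
  have he := single_dot_single i0
  have h1 : (g.1 *ᵥ Pi.single i0 1) ⬝ᵥ (g.1 *ᵥ Pi.single i0 1) = 1 := by rw [SO_dot, he]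
  have h2 : (g.1 *ᵥ Pi.single i0 1) i0 = g.1 i0 i0 := by
    rw [Matrix.mulVec_single_one, Matrix.col_apply]
  have h3 : (g.1 i0 i0) ^ 2 ≤ 1 := by
    rw [← h1, ← h2, sq]
    unfold dotProduct
    exact Finset.single_le_sum (f := fun i => (g.1 *ᵥ Pi.single i0 1) i *
      (g.1 *ᵥ Pi.single i0 1) i) (fun i _ => mul_self_nonneg _) (Finset.mem_univ i0)
  exact (sq_le_one_iff_abs_le_one _).1 h3

end

/-- the classification for `n ≥ 3`, assuming that `f` has a left limit at `1` -/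
theorem main_of_limit.{u} (n : ℕ) (hn : 3 ≤ n)
    (H : Type u) [NormedAddCommGroup H] [InnerProductSpace ℂ H] [CompleteSpace H]
    (π : SO n →* (H ≃ₗᵢ[ℂ] H)) (i0 : Fin n) (v : H)
    (D : SphData π) (hD : D.V (Pi.single i0 1) = v)
    (hLim : ∃ a : ℝ, Tendsto D.f (𝓝[<] 1) (𝓝 a)) :
    (∃ k : ℕ, ∀ g : SO n, inner ℂ v (π g v) =
      ((gegen (((n : ℝ) - 2) / 2) (g.1 i0 i0) k / gegen (((n : ℝ) - 2) / 2) 1 k : ℝ) : ℂ)) ∨
    (∀ g : SO n, inner ℂ v (π g v) =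
      if g.1 i0 i0 = 1 ∨ g.1 i0 i0 = -1 then 1 else 0) ∨
    (∀ g : SO n, inner ℂ v (π g v) =
      if g.1 i0 i0 = 1 ∨ g.1 i0 i0 = -1 then ((g.1 i0 i0 : ℝ) : ℂ) else 0) := by
  have hSq := Sq_proof.{u}
  have hCont := Cont_proof.{u}
  have hProd := Prod_proof.{u}
  have hFin := Fin_proof (Moment_proof Inv_proof.{0})
  have hGegen := Gegen_proof
  have hstate : ∀ g : SO n, inner ℂ v (π g v) = ((D.f (g.1 i0 i0) : ℝ) : ℂ) := by
    intro g
    rw [← hD]
    exact D.state i0 g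
  have he := single_dot_single i0
  obtain ⟨a, ha⟩ := hLim
  have hsq := hSq n H π D a hn ha
  by_cases ha0 : a ≤ 0
  · -- the discontinuous case
    right
    have hz := Zero_proof n H D.V D.f a hn D.f_one D.inner_V ha ha0
    have hval : ∀ g : SO n, ¬ (g.1 i0 i0 = 1 ∨ g.1 i0 i0 = -1) → D.f (g.1 i0 i0) = 0 := by
      intro g hg
      rw [not_or] at hg
      have h2 := abs_le.1 (SO_entry_abs_le i0 g)
      exact hz _ ⟨lt_of_le_of_ne h2.1 (Ne.symm hg.2), lt_of_le_of_ne h2.2 hg.1⟩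
    rcases D.f_neg_one _ he with hm | hm
    · left
      intro g
      rw [hstate]
      split_ifs with hg
      · rcases hg with hg | hg
        · rw [hg, D.f_one]; simp
        · rw [hg, hm]; simp
      · rw [hval g hg]; simp
    · right
      intro g
      rw [hstate]
      split_ifs with hg
      · rcases hg with hg | hg
        · rw [hg, D.f_one]
        · rw [hg, hm]
      · rw [hval g hg]; simp
  · -- the continuous case
    left
    have hev : ∀ᶠ t in 𝓝[<] (1 : ℝ), D.f t ≤ 1 := by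
      have h2 : ∀ᶠ t in 𝓝[<] (1 : ℝ), t ∈ Set.Ioo (-1 : ℝ) 1 := Ioo_mem_nhdsLT (by norm_num)
      filter_upwards [h2] with t ht
      have hx : vec3 n 1 0 0 ⬝ᵥ vec3 n 1 0 0 = 1 := by rw [vec3_dot hn]; ring
      have hy : vec3 n t (Real.sqrt (1 - t ^ 2)) 0 ⬝ᵥ vec3 n t (Real.sqrt (1 - t ^ 2)) 0 = 1 := by
        rw [vec3_dot hn]
        have := Real.mul_self_sqrt (show 0 ≤ 1 - t ^ 2 by nlinarith [ht.1, ht.2])
        nlinarith
      have hxy : vec3 n 1 0 0 ⬝ᵥ vec3 n t (Real.sqrt (1 - t ^ 2)) 0 = t := by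
        rw [vec3_dot hn]; ring
      have h3 := norm_inner_le_norm (𝕜 := ℂ) (D.V (vec3 n 1 0 0))
        (D.V (vec3 n t (Real.sqrt (1 - t ^ 2)) 0))
      rw [D.inner_V _ _ hx hy, hxy, D.norm_V _ hx, D.norm_V _ hy, one_mul, Complex.norm_real,
        Real.norm_eq_abs] at h3
      exact (abs_le.1 h3).2
    have ha1 : a ≤ 1 := le_of_tendsto ha hev
    have ha2 : a = 1 := by nlinarith
    rw [ha2] at ha
    have hcont := (hCont n H D.V D.f hn D.f_one D.inner_V ha).1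
    have hne : ∃ i1 : Fin n, i0 ≠ i1 := by
      have : Nontrivial (Fin n) := Fin.nontrivial_iff_two_le.2 (by omega)
      obtain ⟨i1, hi1⟩ := exists_ne i0
      exact ⟨i1, hi1.symm⟩
    obtain ⟨i1, hi1⟩ := hne
    obtain ⟨k, hk⟩ := hFin n i0 i1 D.f hi1 hn D.f_one hcont
      (fun m t ht => hProd n H π D hn ha i0 i1 hi1 m t ht)
    refine ⟨k, fun g => ?_⟩
    rw [hstate, hk _ (abs_le.1 (SO_entry_abs_le i0 g)), (hGegen n k _ hn).2]

end Pool.Agent.ClassOne
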